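import Mathlib
import Pool.Agent.TH194.BL.LskG
import Pool.Agent.TH194.BL.Fin5

/-!
Project NF: the arithmetic large sieve for integer points indexed by a finite type; boxes.
-/

set_option autoImplicit false

namespace Pool.Agent.TH194.NF

open Finset

/-- the large sieve for integer points indexed by a finite type -/
theorem lskI {ι : Type} [Fintype ι] {η : ℝ} (hη0 : 0 < η) (N Q j : ℕ)
    (a : ι → ℤ) (P : Finset ℕ) (Z : Finset (ι → ℤ)) (Om : (t : ℕ) → Finset (ι → ZMod t))
    (hN : 1 ≤ N) (hQN : Q ^ 2 ≤ N) (hP : ∀ t ∈ P, t.Prime)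
    (hZ : ∀ z ∈ Z, ∀ i, a i < z i ∧ z i ≤ a i + N)
    (hOm : ∀ t ∈ P, ((Om t).card : ℝ) ≤ (1 - η) * (t : ℝ) ^ Fintype.card ι)
    (hZO : ∀ z ∈ Z, ∀ t ∈ P, (fun i => ((z i : ℤ) : ZMod t)) ∈ Om t)
    (hD : ∀ D ∈ P.powersetCard j, ∏ t ∈ D, t ≤ Q) :
    (Z.card : ℝ) * ((P.card.choose j : ℝ) * η ^ j) ≤ (12 * (N : ℝ)) ^ Fintype.card ι := by
  classical
  set n := Fintype.card ι with hn
  set e : ι ≃ Fin n := Fintype.equivFin ι with he
  let f : (ι → ℤ) → (Fin n → ℕ) := fun z i => (z (e.symm i) - a (e.symm i)).toNat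
  have hinj : Set.InjOn f (Z : Set (ι → ℤ)) := by
    intro z hz z' hz' h
    funext i
    have h1 := congrFun h (e i)
    simp only [f, Equiv.symm_apply_apply] at h1
    have h2 := hZ z hz i
    have h3 := hZ z' hz' i
    omega
  have hcard : (Z.image f).card = Z.card := card_image_of_injOn hinj
  have key := Pool.Agent.TH194.BL.G.lskG hη0 n N Q j (fun _ => 0) P (Z.image f)
    (fun t => (Om t).image (fun v i => v (e.symm i) - (a (e.symm i) : ZMod t))) hN hQN hP
    (by
      intro z hz i
      rw [mem_image] at hz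
      obtain ⟨z', hz', rfl⟩ := hz
      have := hZ z' hz' (e.symm i)
      simp only [f, mem_Ioc]
      omega)
    (by
      intro t ht
      refine le_trans ?_ (hOm t ht)
      exact_mod_cast card_image_le)
    (by
      intro z hz t ht
      rw [mem_image] at hz
      obtain ⟨z', hz', rfl⟩ := hz
      simp only [mem_image]
      refine ⟨fun i => ((z' i : ℤ) : ZMod t), hZO z' hz' t ht, ?_⟩
      funext i
      have h1 := hZ z' hz' (e.symm i)
      have h2 : (((f z' i : ℕ) : ℤ) : ZMod t) = ((z' (e.symm i) - a (e.symm i) : ℤ) : ZMod t) := by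
        congr 1
        simp only [f]
        omega
      rw [Int.cast_natCast] at h2
      rw [h2]
      push_cast
      rfl)
    hD
  rw [hcard] at key
  exact key

/-- from cubes to boxes -/
theorem box_countI {ι : Type} [Fintype ι] {N : ℕ} (hN : 1 ≤ N) {a : ι → ℤ} {b : ι → ℕ}
    (hb : ∀ i, N ≤ b i) {E : Finset (ι → ℤ)} (hE : ∀ z ∈ E, ∀ i, a i < z i ∧ z i ≤ a i + b i)
    {β : ℝ} (hβ0 : 0 ≤ β)
    (hβ : ∀ a' : ι → ℤ, ∀ E' : Finset (ι → ℤ), E' ⊆ E →
      (∀ z ∈ E', ∀ i, a' i < z i ∧ z i ≤ a' i + N) → (E'.card : ℝ) ≤ β) :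
    (E.card : ℝ) ≤ β * (2 ^ Fintype.card ι * (∏ i, (b i : ℝ)) / (N : ℝ) ^ Fintype.card ι) := by
  classical
  set n := Fintype.card ι with hn
  set e : ι ≃ Fin n := Fintype.equivFin ι with he
  let f : (ι → ℤ) → (Fin n → ℕ) := fun z i => (z (e.symm i) - a (e.symm i)).toNat
  have hinj : Set.InjOn f (E : Set (ι → ℤ)) := by
    intro z hz z' hz' h
    funext i
    have h1 := congrFun h (e i)
    simp only [f, Equiv.symm_apply_apply] at h1
    have h2 := hE z hz i
    have h3 := hE z' hz' i
    omega
  have hcard : (E.image f).card = E.card := card_image_of_injOn hinj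
  have key := Pool.Agent.TH194.BL.box_count (k := n) (N := N) hN (a := fun _ => 0)
    (M := fun i => b (e.symm i)) (fun i => hb _) (E := E.image f)
    (by
      intro z hz i
      rw [mem_image] at hz
      obtain ⟨z', hz', rfl⟩ := hz
      have := hE z' hz' (e.symm i)
      simp only [f]
      omega)
    hβ0
    (by
      intro a' E' hE' hcube
      -- the preimage
      set E'' := E.filter (fun z => f z ∈ E') with hE''
      have h1 : E' = E''.image f := by
        ext z
        rw [mem_image]
        constructor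
        · intro hz
          have := hE' hz
          rw [mem_image] at this
          obtain ⟨z', hz', rfl⟩ := this
          exact ⟨z', by rw [hE'', mem_filter]; exact ⟨hz', hz⟩, rfl⟩
        · rintro ⟨z', hz', rfl⟩
          rw [hE'', mem_filter] at hz'
          exact hz'.2
      have h2 : E'.card = E''.card := by
        rw [h1]
        exact card_image_of_injOn (hinj.mono (by
          intro z hz
          rw [mem_coe, hE'', mem_filter] at hz
          exact hz.1))
      rw [h2]
      apply hβ (fun i => a i + a' (e i)) E'' (filter_subset _ _)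
      intro z hz i
      rw [hE'', mem_filter] at hz
      have h3 := hcube _ hz.2
      rw [Pool.Agent.TH194.BL.Cube, Fintype.mem_piFinset] at h3
      have h4 := h3 (e i)
      rw [mem_Ioc] at h4
      simp only [f, Equiv.symm_apply_apply] at h4
      have h5 := hE z hz.1 i
      omega)
  rw [hcard] at key
  have hprod : ∏ i, ((b (e.symm i) : ℕ) : ℝ) = ∏ i, (b i : ℝ) :=
    Equiv.prod_comp e.symm (fun i => (b i : ℝ))
  rw [hprod] at key
  exact key

end Pool.Agent.TH194.NF
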