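import Mathlib
import Pool.Agent.TH194.BL.LocW

/-!
Project NF: local sets for a homomorphism from the ring of integers to `ℤ/t`.
-/

set_option autoImplicit false

namespace Pool.Agent.TH194.NF

open Finset NumberField

/-- the linear map given by a functional in every block -/
def Lam {k d t : ℕ} (w : Fin d → ZMod t) : (Fin k × Fin d → ZMod t) →+ (Fin k → ZMod t) where
  toFun v l := ∑ j, v (l, j) * w j
  map_zero' := by
    funext l
    simp
  map_add' v v' := by
    funext l
    simp only [Pi.add_apply, add_mul, sum_add_distrib]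

theorem Lam_surj {k d t : ℕ} [Fact t.Prime] {w : Fin d → ZMod t} {j₀ : Fin d} (h : w j₀ ≠ 0) :
    Function.Surjective (Lam (k := k) w) := by
  classical
  intro u
  refine ⟨fun p => if p.2 = j₀ then u p.1 * (w j₀)⁻¹ else 0, ?_⟩
  funext l
  show ∑ j, (if j = j₀ then u l * (w j₀)⁻¹ else 0) * w j = u l
  rw [sum_eq_single j₀]
  · rw [if_pos rfl, mul_assoc, inv_mul_cancel₀ h, mul_one]
  · intro j _ hj
    rw [if_neg hj, zero_mul]
  · intro hj
    exact absurd (mem_univ _) hj

open Classical in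
theorem card_pre {k d t : ℕ} [Fact t.Prime] {w : Fin d → ZMod t} {j₀ : Fin d} (h : w j₀ ≠ 0)
    (S : Finset (Fin k → ZMod t)) :
    ((univ : Finset (Fin k × Fin d → ZMod t)).filter (fun v => Lam w v ∈ S)).card * t ^ k =
      S.card * t ^ Fintype.card (Fin k × Fin d) := by
  have hs := Lam_surj (k := k) h
  set c0 := ((univ : Finset (Fin k × Fin d → ZMod t)).filter (fun v => Lam w v = 0)).card with hc0
  have hf : ∀ u : Fin k → ZMod t,
      ((univ : Finset (Fin k × Fin d → ZMod t)).filter (fun v => Lam w v = u)).card = c0 := by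
    intro u
    rw [hc0]
    exact AddMonoidHom.card_fiber_eq_of_mem_range (Lam w) (hs u) (hs 0)
  have h1 : ∀ T : Finset (Fin k → ZMod t),
      ((univ : Finset (Fin k × Fin d → ZMod t)).filter (fun v => Lam w v ∈ T)).card =
        T.card * c0 := by
    intro T
    have h2 := card_eq_sum_card_fiberwise (f := fun v => Lam w v)
      (s := (univ : Finset (Fin k × Fin d → ZMod t)).filter (fun v => Lam w v ∈ T)) (t := T)
      (fun v hv => (mem_filter.1 hv).2)
    rw [h2, sum_congr rfl (g := fun _ => c0), sum_const, smul_eq_mul]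
    intro u hu
    rw [← hf u]
    congr 1
    ext v
    simp only [mem_filter, mem_univ, true_and]
    constructor
    · rintro ⟨_, h3⟩; exact h3
    · intro h3; exact ⟨by rw [h3]; exact hu, h3⟩
  have h3 := h1 univ
  rw [card_univ, Fintype.card_fun, ZMod.card, Fintype.card_fin] at h3
  have h4 : ((univ : Finset (Fin k × Fin d → ZMod t)).filter
      (fun v => Lam w v ∈ (univ : Finset (Fin k → ZMod t)))) = univ := by
    apply filter_true_of_mem
    intro v _
    exact mem_univ _
  rw [h4, card_univ, Fintype.card_fun, ZMod.card] at h3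
  rw [h1 S, h3]
  ring

open Classical in
/-- the local sets -/
noncomputable def OmL {k d M t : ℕ} [Fact t.Prime] (w : Fin d → ZMod t) (x : Fin M → Fin k → ℕ)
    (c : Fin M → ZMod t) : Finset (Fin k × Fin d → ZMod t) :=
  univ.filter (fun v => (∃ l, Lam w v l = 0) ∨ ∑ i, c i * ∏ l, (Lam w v l) ^ x i l = 0)

theorem card_OmL {k d M t : ℕ} [Fact t.Prime] {w : Fin d → ZMod t} {j₀ : Fin d} (h : w j₀ ≠ 0)
    (ht : k * 2 ^ (M + 1) ≤ t) (x : Fin M → Fin k → ℕ)
    {c : Fin M → ZMod t} (hc : ∑ i, c i ≠ 0) :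
    ((OmL w x c : Finset (Fin k × Fin d → ZMod t)).card : ℝ) ≤
      (1 - (1 / 2) ^ (M + 1)) * (t : ℝ) ^ Fintype.card (Fin k × Fin d) := by
  classical
  have h1 := Pool.Agent.TH194.BL.W.locW k M t ht x c hc
  set S := (univ : Finset (Fin k → ZMod t)).filter (fun A => (∃ l, A l = 0) ∨
      ∑ i, c i * ∏ l, A l ^ x i l = 0) with hS
  have h2 := card_pre (k := k) h S
  have h3 : (OmL w x c : Finset (Fin k × Fin d → ZMod t)) =
      (univ : Finset (Fin k × Fin d → ZMod t)).filter (fun v => Lam w v ∈ S) := by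
    unfold OmL
    apply filter_congr
    intro v _
    rw [hS, mem_filter]
    simp only [mem_univ, true_and]
  have htp : t.Prime := Fact.out
  have ht0 : (0 : ℝ) < (t : ℝ) ^ k := by
    have : (0 : ℝ) < t := by exact_mod_cast htp.pos
    positivity
  have h4 : ((OmL w x c : Finset (Fin k × Fin d → ZMod t)).card : ℝ) * (t : ℝ) ^ k =
      (S.card : ℝ) * (t : ℝ) ^ Fintype.card (Fin k × Fin d) := by
    rw [h3]
    exact_mod_cast h2
  have h5 : (S.card : ℝ) ≤ (1 - (1 / 2) ^ (M + 1)) * (t : ℝ) ^ k := by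
    convert h1
  apply le_of_mul_le_mul_right _ ht0
  rw [h4]
  calc (S.card : ℝ) * (t : ℝ) ^ Fintype.card (Fin k × Fin d)
      ≤ ((1 - (1 / 2) ^ (M + 1)) * (t : ℝ) ^ k) * (t : ℝ) ^ Fintype.card (Fin k × Fin d) := by
        gcongr
    _ = _ := by ring

section field

variable {K : Type} [Field K] [NumberField K] {d : ℕ} (b : Module.Basis (Fin d) ℤ (𝓞 K))

/-- the algebraic integer with given coordinates -/
noncomputable def el (v : Fin d → ℤ) : 𝓞 K := ∑ j, v j • b j

theorem repr_el (v : Fin d → ℤ) (j : Fin d) : b.repr (el b v) j = v j := by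
  unfold el
  rw [b.repr_sum_self]

theorem phi_el {t : ℕ} (φ : 𝓞 K →+* ZMod t) (v : Fin d → ℤ) :
    φ (el b v) = ∑ j, ((v j : ℤ) : ZMod t) * φ (b j) := by
  unfold el
  rw [map_sum]
  apply sum_congr rfl
  intro j _
  rw [zsmul_eq_mul, map_mul, map_intCast]

theorem exists_phi_ne {t : ℕ} [Fact t.Prime] (φ : 𝓞 K →+* ZMod t) : ∃ j, φ (b j) ≠ 0 := by
  by_contra h
  push Not at h
  have h1 : φ (el b (b.repr 1)) = 0 := by
    rw [phi_el]
    apply sum_eq_zero
    intro j _
    rw [h j, mul_zero]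
  have h2 : el b (b.repr 1) = 1 := by
    unfold el
    exact b.sum_repr 1
  rw [h2, map_one] at h1
  exact one_ne_zero h1

/-- bound for the norm -/
theorem norm_el_le {v : Fin d → ℤ} {y : ℤ} (hv : ∀ j, |v j| ≤ y) :
    |Algebra.norm ℤ (el b v)| ≤ ClassGroup.normBound AbsoluteValue.abs b * y ^ d := by
  have h := ClassGroup.norm_le AbsoluteValue.abs b (el b v) (y := y) (by
    intro j
    rw [repr_el]
    exact hv j)
  rw [Fintype.card_fin] at h
  exact h

/-- the kernel of a homomorphism contains the norm -/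
theorem dvd_norm {t : ℕ} (φ : 𝓞 K →+* ZMod t) {s : 𝓞 K} (hs : φ s = 0) :
    t ∣ (Algebra.norm ℤ s).natAbs := by
  have h1 : ((Ideal.absNorm (Ideal.span {s}) : ℕ) : 𝓞 K) ∈ Ideal.span {s} :=
    Ideal.absNorm_mem _
  rw [Ideal.absNorm_span_singleton] at h1
  rw [Ideal.mem_span_singleton] at h1
  obtain ⟨r, hr⟩ := h1
  have h2 := congrArg φ hr
  rw [map_mul, hs, zero_mul, map_natCast] at h2
  exact (ZMod.natCast_eq_zero_iff _ _).1 h2

end field

end Pool.Agent.TH194.NF
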