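import Mathlib
import Pool.Agent.TH194.NF.Loc
import Pool.Agent.TH194.NF.Cov
import Pool.Agent.TH194.BL.Fin1

/-!
Project NF: covering of the exceptional points by sieved sets.
-/

set_option autoImplicit false

namespace Pool.Agent.TH194.NF

open Finset NumberField
open Pool.Agent.TH194.BL (pow_mod_lam)

variable {K : Type} [Field K] [NumberField K] {d : ℕ} (b : Module.Basis (Fin d) ℤ (𝓞 K))

/-- The exceptional points: some combination of `M` elements of the semigroup generated by the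
algebraic integers, whose coefficients have coordinates at most `H` and nonzero sum, vanishes. -/
def ExcK (k M H : ℕ) : Set (Fin k × Fin d → ℤ) :=
  {z | ∃ (x : Fin M → Fin k → ℕ) (c : Fin M → Fin d → ℤ), (∀ i j, |c i j| ≤ H) ∧
      ∑ i, el b (c i) ≠ 0 ∧ ∑ i, el b (c i) * ∏ l, el b (fun j => z (l, j)) ^ x i l = 0}

theorem el_sum {M : ℕ} (c : Fin M → Fin d → ℤ) :
    ∑ i, el b (c i) = el b (fun j => ∑ i, c i j) := by
  unfold el
  rw [sum_comm]
  apply sum_congr rfl
  intro j _
  rw [sum_smul]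

open Classical in
/-- **Covering.** -/
theorem card_excK_le {k M H lam N Q j : ℕ} {B NB : ℝ} (a : Fin k × Fin d → ℤ) {P : Finset ℕ}
    (Φ : (t : ℕ) → t ∈ P → (𝓞 K →+* ZMod t))
    (hN : 1 ≤ N) (hQ : Q ^ 2 ≤ N) (hP : ∀ t ∈ P, t.Prime) (hPl : ∀ t ∈ P, t - 1 ∣ lam)
    (hPk : ∀ t ∈ P, k * 2 ^ (M + 1) ≤ t)
    (hj : ∀ D ∈ P.powersetCard j, ∏ t ∈ D, t ≤ Q) (hlam : 0 < lam) (hB : 0 < B)
    (hNB : (ClassGroup.normBound AbsoluteValue.abs b : ℝ) * ((M : ℝ) * H) ^ d ≤ NB)
    (hBin : ∀ D ⊆ P, (∏ t ∈ D, (t : ℝ)) ≤ NB →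
      B ≤ ((P \ D).card.choose j : ℝ) * ((1 / 2) ^ (M + 1)) ^ j)
    (E : Finset (Fin k × Fin d → ℤ)) (hE : ∀ z ∈ E, (∀ i, a i < z i ∧ z i ≤ a i + N) ∧
      z ∈ ExcK b k M H) :
    (E.card : ℝ) ≤ (lam : ℝ) ^ (k * M) * (2 * H + 1 : ℝ) ^ (d * M) *
      ((12 * (N : ℝ)) ^ Fintype.card (Fin k × Fin d) / B) := by
  have : NeZero lam := ⟨hlam.ne'⟩
  set I := (Fin M → Fin k → Fin lam) × (Fin M → Fin d → Fin (2 * H + 1)) with hI
  let co : I → Fin M → Fin d → ℤ := fun i m l => (((i.2 m l : Fin (2 * H + 1)) : ℕ) : ℤ) - H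
  let sm : I → 𝓞 K := fun i => ∑ m, el b (co i m)
  let PI : I → Finset ℕ := fun i => P.filter (fun t => ∀ h : t ∈ P, Φ t h (sm i) ≠ 0)
  let Om : I → (t : ℕ) → Finset (Fin k × Fin d → ZMod t) := fun i t =>
    if h : t ∈ P then
      haveI : Fact t.Prime := ⟨hP t h⟩
      OmL (fun l => Φ t h (b l)) (fun m l => ((i.1 m l : Fin lam) : ℕ))
        (fun m => Φ t h (el b (co i m)))
    else ∅
  let ZI : I → Finset (Fin k × Fin d → ℤ) := fun i => E.filter (fun z => ∀ t ∈ PI i,
    (fun l => ((z l : ℤ) : ZMod t)) ∈ Om i t)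
  -- the maps
  have hLam : ∀ (z : Fin k × Fin d → ℤ) (t : ℕ) (h : t ∈ P) (l : Fin k),
      Lam (fun l => Φ t h (b l)) (fun l => ((z l : ℤ) : ZMod t)) l =
        Φ t h (el b (fun j => z (l, j))) := by
    intro z t h l
    rw [phi_el]
    rfl
  have hsub : E ⊆ ((univ : Finset I).filter (fun i => sm i ≠ 0)).biUnion ZI := by
    intro z hz
    obtain ⟨hzc, x, c, h1, h2, h3⟩ := hE z hz
    rw [mem_biUnion]
    have hcb : ∀ m l, (c m l + H).toNat < 2 * H + 1 := by
      intro m l
      have := abs_le.1 (h1 m l)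
      omega
    set i : I := (fun m l => ⟨x m l % lam, Nat.mod_lt _ hlam⟩,
      fun m l => ⟨(c m l + H).toNat, hcb m l⟩) with hi
    have hco : co i = c := by
      funext m l
      simp only [co, hi]
      have := abs_le.1 (h1 m l)
      omega
    refine ⟨i, ?_, ?_⟩
    · rw [mem_filter]
      refine ⟨mem_univ _, ?_⟩
      simp only [sm, hco]
      exact h2
    · rw [mem_filter]
      refine ⟨hz, fun t ht => ?_⟩
      have ht' : t ∈ P := (mem_filter.1 ht).1
      have : Fact t.Prime := ⟨hP t ht'⟩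
      simp only [Om]
      rw [dif_pos ht']
      unfold OmL
      rw [mem_filter]
      refine ⟨mem_univ _, ?_⟩
      simp only [hLam]
      by_cases h0 : ∃ l, Φ t ht' (el b (fun j => z (l, j))) = 0
      · left; exact h0
      · right
        push Not at h0
        rw [hco]
        have e2 := congrArg (Φ t ht') h3
        rw [map_sum, map_zero] at e2
        rw [← e2]
        apply sum_congr rfl
        intro m _
        rw [map_mul, map_prod]
        congr 1
        apply prod_congr rfl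
        intro l _
        simp only [hi]
        rw [pow_mod_lam (hPl t ht') (h0 l), map_pow]
  have hZ : ∀ i ∈ (univ : Finset I).filter (fun i => sm i ≠ 0),
      ((ZI i).card : ℝ) ≤ (12 * (N : ℝ)) ^ Fintype.card (Fin k × Fin d) / B := by
    intro i hi
    rw [mem_filter] at hi
    have hg : sm i ≠ 0 := hi.2
    have hPIsub : PI i ⊆ P := filter_subset _ _
    -- the bad primes
    set D := P \ PI i with hD
    have hDP : D ⊆ P := sdiff_subset
    have hDd : ∀ t ∈ D, t ∣ (Algebra.norm ℤ (sm i)).natAbs := by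
      intro t ht
      rw [hD, mem_sdiff] at ht
      have h1 : ¬ ∀ h : t ∈ P, Φ t h (sm i) ≠ 0 := by
        intro h
        exact ht.2 (mem_filter.2 ⟨ht.1, h⟩)
      push Not at h1
      obtain ⟨h, h2⟩ := h1
      exact dvd_norm (Φ t h) h2
    have hn0 : (Algebra.norm ℤ (sm i)).natAbs ≠ 0 := by
      rw [Int.natAbs_ne_zero]
      exact Algebra.norm_ne_zero_iff.2 hg
    have hprod : ∏ t ∈ D, t ∣ (Algebra.norm ℤ (sm i)).natAbs :=
      Finset.prod_primes_dvd _ (fun t ht => (hP t (hDP ht)).prime) hDd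
    have hco : ∀ j, |∑ m, co i m j| ≤ (M : ℤ) * H := by
      intro j
      calc |∑ m, co i m j| ≤ ∑ m, |co i m j| := abs_sum_le_sum_abs _ _
        _ ≤ ∑ m : Fin M, (H : ℤ) := by
            apply sum_le_sum
            intro m _
            simp only [co]
            have := (i.2 m j).2
            rw [abs_le]
            constructor <;> omega
        _ = M * H := by rw [sum_const, card_univ, Fintype.card_fin, nsmul_eq_mul]
    have hnorm := norm_el_le b hco
    have hle : (∏ t ∈ D, (t : ℝ)) ≤ NB := by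
      refine le_trans ?_ hNB
      have h1 : ∏ t ∈ D, t ≤ (Algebra.norm ℤ (sm i)).natAbs :=
        Nat.le_of_dvd (Nat.pos_of_ne_zero hn0) hprod
      have h2 : (((Algebra.norm ℤ (sm i)).natAbs : ℕ) : ℤ) = |Algebra.norm ℤ (sm i)| :=
        Int.natCast_natAbs _
      have h3 : sm i = el b (fun j => ∑ m, co i m j) := el_sum b _
      have h4 : (((∏ t ∈ D, t : ℕ) : ℤ)) ≤
          ClassGroup.normBound AbsoluteValue.abs b * ((M : ℤ) * H) ^ d := by
        calc ((∏ t ∈ D, t : ℕ) : ℤ) ≤ (((Algebra.norm ℤ (sm i)).natAbs : ℕ) : ℤ) := by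
              exact_mod_cast h1
          _ = |Algebra.norm ℤ (sm i)| := h2
          _ ≤ _ := by rw [h3]; exact hnorm
      have h5 : ((((∏ t ∈ D, t : ℕ) : ℤ)) : ℝ) ≤
          ((ClassGroup.normBound AbsoluteValue.abs b * ((M : ℤ) * H) ^ d : ℤ) : ℝ) := by
        exact_mod_cast h4
      push_cast at h5
      exact h5
    have hb := hBin D hDP hle
    have hDD : P \ D = PI i := by
      rw [hD]
      exact Finset.sdiff_sdiff_eq_self hPIsub
    rw [hDD] at hb
    have hl := lskI (η := (1 / 2) ^ (M + 1)) (by positivity) N Q j a (PI i) (ZI i) (Om i) hN hQ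
      (fun t ht => hP t (hPIsub ht))
      (by
        intro z hz
        exact (hE z (mem_filter.1 hz).1).1)
      (by
        intro t ht
        have ht' := hPIsub ht
        have : Fact t.Prime := ⟨hP t ht'⟩
        simp only [Om]
        rw [dif_pos ht']
        obtain ⟨j₀, hj₀⟩ := exists_phi_ne b (Φ t ht')
        apply card_OmL (j₀ := j₀) hj₀ (hPk t ht')
        rw [← map_sum]
        exact (mem_filter.1 ht).2 ht')
      (by
        intro z hz t ht
        exact (mem_filter.1 hz).2 t ht)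
      (by
        intro D' hD'
        exact hj D' (powersetCard_mono hPIsub hD'))
    rw [le_div_iff₀ hB]
    calc ((ZI i).card : ℝ) * B ≤ ((ZI i).card : ℝ) *
          (((PI i).card.choose j : ℝ) * ((1 / 2) ^ (M + 1)) ^ j) := by gcongr
      _ ≤ _ := hl
  have hcard : (Fintype.card I : ℝ) = (lam : ℝ) ^ (k * M) * (2 * H + 1 : ℝ) ^ (d * M) := by
    simp only [hI, Fintype.card_prod, Fintype.card_fun, Fintype.card_fin]
    push_cast
    rw [pow_mul, pow_mul]
  calc (E.card : ℝ)
      ≤ ((((univ : Finset I).filter (fun i => sm i ≠ 0)).biUnion ZI).card : ℝ) := by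
        exact_mod_cast card_le_card hsub
    _ ≤ ∑ i ∈ (univ : Finset I).filter (fun i => sm i ≠ 0), ((ZI i).card : ℝ) := by
        exact_mod_cast card_biUnion_le
    _ ≤ ∑ i ∈ (univ : Finset I).filter (fun i => sm i ≠ 0),
        (12 * (N : ℝ)) ^ Fintype.card (Fin k × Fin d) / B := sum_le_sum hZ
    _ = (((univ : Finset I).filter (fun i => sm i ≠ 0)).card : ℝ) *
        ((12 * (N : ℝ)) ^ Fintype.card (Fin k × Fin d) / B) := by
        rw [sum_const, nsmul_eq_mul]
    _ ≤ (Fintype.card I : ℝ) * ((12 * (N : ℝ)) ^ Fintype.card (Fin k × Fin d) / B) := by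
        apply mul_le_mul_of_nonneg_right _ (by positivity)
        exact_mod_cast card_le_univ _
    _ = _ := by rw [hcard]

end Pool.Agent.TH194.NF
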