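import Mathlib
import Pool.Agent.TH194.BL.Fin3

/-!
Project NF: choice of the parameters.
-/

set_option autoImplicit false

namespace Pool.Agent.TH194.NF

open Finset Filter

/-- the exponent: all prime factors at most the bound belong to `S` -/
def lamS (S : Finset ℕ) (T : ℕ) : ℕ := ∏ p ∈ S, p ^ Nat.log p T

theorem lamS_pos {S : Finset ℕ} {T : ℕ} (hS : ∀ p ∈ S, p.Prime) : 0 < lamS S T :=
  Finset.prod_pos fun p hp => pow_pos (hS p hp).pos _

theorem lamS_le {S : Finset ℕ} {T : ℕ} (hT : 1 ≤ T) : (lamS S T : ℝ) ≤ (T : ℝ) ^ S.card := by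
  have h : lamS S T ≤ T ^ S.card := by
    unfold lamS
    calc ∏ p ∈ S, p ^ Nat.log p T ≤ ∏ p ∈ S, T := by
          apply Finset.prod_le_prod'
          intro p _
          exact Nat.pow_log_le_self p (by omega)
      _ = T ^ S.card := by rw [prod_const]
  exact_mod_cast h

theorem dvd_lamS {S : Finset ℕ} {T t : ℕ} (ht : t ≤ T) (ht2 : 2 ≤ t)
    (hS : ∀ p : ℕ, p.Prime → p ∣ t - 1 → p ∈ S) : t - 1 ∣ lamS S T := by
  have hm0 : t - 1 ≠ 0 := by omega
  unfold lamS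
  conv_lhs => rw [← Nat.prod_factorization_pow_eq_self hm0]
  rw [Finsupp.prod, Nat.support_factorization]
  have hsub : (t - 1).primeFactors ⊆ S := by
    intro p hp
    rw [Nat.mem_primeFactors] at hp
    exact hS p hp.1 hp.2.1
  refine dvd_trans (Finset.prod_dvd_prod_of_dvd _ _ ?_)
    (Finset.prod_dvd_prod_of_subset _ _ _ hsub)
  intro p hp
  rw [Nat.mem_primeFactors] at hp
  apply pow_dvd_pow
  apply Nat.le_log_of_pow_le hp.1.one_lt
  calc p ^ (t - 1).factorization p ≤ t - 1 := Nat.le_of_dvd (by omega) (Nat.ordProj_dvd _ p)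
    _ ≤ T := by omega

/-- inequalities between the parameters, for `L = log N` -/
structure ParK (k M d T₀ : ℕ) (σ ε nb L : ℝ) : Prop where
  l1 : 1 ≤ L
  ll : 2 ≤ Real.log L
  t0 : (T₀ : ℝ) + 1 ≤ L ^ (1 + σ)
  c4 : (k * M : ℝ) * (2 * (L ^ (1 - σ) + 1) * Real.log L) + (d * M : ℝ) * (2 + L ^ (1 - ε)) ≤
    σ / 64 * L
  c5 : (k * d : ℝ) * Real.log 12 ≤ σ / 64 * L
  c6 : nb + d * L ^ (1 - ε) ≤ L * Real.log 2
  c7 : 2 ^ (M + 2) * L ^ (1 + σ / 4) + L + k * 2 ^ (M + 1) ≤ L ^ (1 + σ) / (16 * d * Real.log L)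
  c8 : 16 * Real.log L ≤ L

theorem ev_log (c : ℝ) {s : ℝ} (hs : 0 < s) : ∀ᶠ L : ℝ in atTop, c * Real.log L ≤ L ^ s := by
  have h := isLittleO_log_rpow_atTop hs
  have h1 := h.def (c := 1 / (|c| + 1)) (by positivity)
  filter_upwards [h1, eventually_ge_atTop (1 : ℝ)] with L h2 hL
  have hlog : 0 ≤ Real.log L := Real.log_nonneg hL
  rw [Real.norm_of_nonneg hlog, Real.norm_of_nonneg (by positivity)] at h2
  have hc : 0 < |c| + 1 := by positivity
  rw [div_mul_eq_mul_div, one_mul, le_div_iff₀ hc] at h2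
  calc c * Real.log L ≤ (|c| + 1) * Real.log L := by
        apply mul_le_mul_of_nonneg_right _ hlog
        have := le_abs_self c
        linarith
    _ = Real.log L * (|c| + 1) := mul_comm _ _
    _ ≤ _ := h2

theorem ev_const (c : ℝ) {s : ℝ} (hs : 0 < s) : ∀ᶠ L : ℝ in atTop, c ≤ L ^ s :=
  (tendsto_rpow_atTop hs).eventually_ge_atTop c

theorem ev_parK (k M d T₀ : ℕ) (hd : 0 < d) {σ ε : ℝ} (hσ : 0 < σ) (hσ1 : σ ≤ 1) (hε : 0 < ε)
    (hε1 : ε ≤ 1) (nb : ℝ) : ∀ᶠ L : ℝ in atTop, ParK k M d T₀ σ ε nb L := by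
  have hd0 : (1 : ℝ) ≤ d := by exact_mod_cast hd
  have g1 : ∀ᶠ L : ℝ in atTop, 2 ≤ Real.log L := Real.tendsto_log_atTop.eventually_ge_atTop 2
  have g2 := ev_const ((T₀ : ℝ) + 1) (s := 1 + σ) (by linarith)
  have g3 := ev_log (512 * (k * M : ℝ) / σ) hσ
  have g4 := ev_const (384 * (d * M : ℝ) / σ) hε
  have g5 : ∀ᶠ L : ℝ in atTop, (k * d : ℝ) * Real.log 12 / (σ / 64) ≤ L := eventually_ge_atTop _
  have g6 : ∀ᶠ L : ℝ in atTop, 4 * nb ≤ L := eventually_ge_atTop _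
  have g7 := ev_const (4 * (d : ℝ)) hε
  have g8 := ev_log (48 * d * 2 ^ (M + 2) : ℝ) (s := 3 * σ / 4) (by linarith)
  have g9 := ev_log (48 * d : ℝ) hσ
  have g10 : ∀ᶠ L : ℝ in atTop, (k * 2 ^ (M + 1) : ℝ) ≤ L := eventually_ge_atTop _
  have g11 := ev_log 16 (s := 1) one_pos
  filter_upwards [g1, g2, g3, g4, g5, g6, g7, g8, g9, g10, g11, eventually_ge_atTop (1 : ℝ)]
    with L h1 h2 h3 h4 h5 h6 h7 h8 h9 h10 h11 hL1
  have hL : 0 < L := lt_of_lt_of_le one_pos hL1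
  have hll : 0 < Real.log L := lt_of_lt_of_le two_pos h1
  have eσ : L ^ (1 - σ) * L ^ σ = L := by
    rw [← Real.rpow_add hL, show 1 - σ + σ = 1 by ring, Real.rpow_one]
  have eε : L ^ (1 - ε) * L ^ ε = L := by
    rw [← Real.rpow_add hL, show 1 - ε + ε = 1 by ring, Real.rpow_one]
  have p1 : 0 < L ^ (1 - σ) := by positivity
  have p2 : 0 < L ^ (1 - ε) := by positivity
  have q1 : 1 ≤ L ^ (1 - σ) := Real.one_le_rpow hL1 (by linarith)
  have k0 : (0 : ℝ) ≤ (k * M : ℝ) := by positivity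
  have d0 : (0 : ℝ) ≤ (d * M : ℝ) := by positivity
  refine ⟨hL1, h1, h2, ?_, ?_, ?_, ?_, ?_⟩
  · -- c4
    have a1 : (k * M : ℝ) * (2 * (L ^ (1 - σ) + 1) * Real.log L) ≤ σ / 128 * L := by
      have b1 : (k * M : ℝ) * (2 * (L ^ (1 - σ) + 1) * Real.log L) ≤
          (k * M : ℝ) * (4 * L ^ (1 - σ) * Real.log L) := by
        apply mul_le_mul_of_nonneg_left _ k0
        apply mul_le_mul_of_nonneg_right _ hll.le
        linarith
      have b2 : (512 * (k * M : ℝ) / σ * Real.log L) * L ^ (1 - σ) ≤ L ^ σ * L ^ (1 - σ) := by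
        gcongr
      rw [mul_comm (L ^ σ), eσ] at b2
      have b3 : (k * M : ℝ) * (4 * L ^ (1 - σ) * Real.log L) =
          σ / 128 * ((512 * (k * M : ℝ) / σ * Real.log L) * L ^ (1 - σ)) := by
        field_simp
        ring
      rw [b3] at b1
      refine b1.trans ?_
      gcongr
    have a3 : (d * M : ℝ) * (2 + L ^ (1 - ε)) ≤ σ / 128 * L := by
      have q2 : 1 ≤ L ^ (1 - ε) := Real.one_le_rpow hL1 (by linarith)
      have b1 : (d * M : ℝ) * (2 + L ^ (1 - ε)) ≤ (d * M : ℝ) * (3 * L ^ (1 - ε)) := by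
        apply mul_le_mul_of_nonneg_left _ d0
        linarith
      have b2 : (384 * (d * M : ℝ) / σ) * L ^ (1 - ε) ≤ L ^ ε * L ^ (1 - ε) := by gcongr
      rw [mul_comm (L ^ ε), eε] at b2
      have b3 : (d * M : ℝ) * (3 * L ^ (1 - ε)) =
          σ / 128 * ((384 * (d * M : ℝ) / σ) * L ^ (1 - ε)) := by
        field_simp
        ring
      rw [b3] at b1
      refine b1.trans ?_
      gcongr
    linarith
  · -- c5
    rw [div_le_iff₀ (by positivity)] at h5
    linarith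
  · -- c6
    have a1 : L ^ (1 - ε) * (4 * d) ≤ L := by
      calc L ^ (1 - ε) * (4 * d) ≤ L ^ (1 - ε) * L ^ ε := by gcongr
        _ = L := eε
    have a2 : L * (1 / 2) ≤ L * Real.log 2 := by
      apply mul_le_mul_of_nonneg_left _ hL.le
      have := Real.log_two_gt_d9
      linarith
    linarith
  · -- c7
    have e1 : L ^ (1 + σ) = L ^ (1 + σ / 4) * L ^ (3 * σ / 4) := by
      rw [← Real.rpow_add hL]
      congr 1
      ring
    have e2 : L ^ (1 + σ) = L * L ^ σ := by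
      rw [Real.rpow_add hL, Real.rpow_one]
    have hden : 0 < 16 * (d : ℝ) * Real.log L := by positivity
    rw [le_div_iff₀ hden]
    have a1 : 2 ^ (M + 2) * L ^ (1 + σ / 4) * (16 * d * Real.log L) * 3 ≤ L ^ (1 + σ) := by
      rw [e1]
      calc 2 ^ (M + 2) * L ^ (1 + σ / 4) * (16 * d * Real.log L) * 3 =
            L ^ (1 + σ / 4) * (48 * d * 2 ^ (M + 2) * Real.log L) := by ring
        _ ≤ _ := by gcongr
    have a2 : L * (16 * d * Real.log L) * 3 ≤ L ^ (1 + σ) := by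
      rw [e2]
      calc L * (16 * d * Real.log L) * 3 = L * (48 * d * Real.log L) := by ring
        _ ≤ _ := by gcongr
    have a3 : (k * 2 ^ (M + 1) : ℝ) * (16 * d * Real.log L) * 3 ≤ L ^ (1 + σ) := by
      refine le_trans ?_ a2
      gcongr
    nlinarith
  · rw [Real.rpow_one] at h11
    exact h11

end Pool.Agent.TH194.NF
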