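import Mathlib
import Pool.Agent.Helper112.PairSieve
import Pool.Agent.Erdos456.Mertens
import Pool.Agent.H484R2.Pit

/-!
Project NF: primes `t` for which `t - 1` has no large prime factor and over which a given number
field has a prime of degree one.  (`large_factor` follows `Pool.Agent.H98R2.Nt.N9`.)
-/

set_option autoImplicit false

namespace Pool.Agent.TH194.NF

open Finset

lemma ratio_one {h : ℕ} (hh : 1 ≤ h) : 1 ≤ (h : ℝ) / (Nat.totient h : ℝ) := by
  have h1 : (0 : ℝ) < Nat.totient h := by exact_mod_cast Nat.totient_pos.mpr hh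
  rw [le_div_iff₀ h1, one_mul]
  exact_mod_cast Nat.totient_le h

lemma ratio_sum (C : ℝ) (hC : ∀ N : ℕ,
    ∑ n ∈ Icc 1 N, ((n : ℝ) / (Nat.totient n : ℝ)) ^ 6 ≤ C * N) (H : ℕ) (hH : 1 ≤ H) :
    ∑ h ∈ Icc 1 H, ((h : ℝ) / (Nat.totient h : ℝ)) ^ 2 / h ≤ C * (2 + Real.log H) := by
  have hG : ∀ N : ℕ, ∑ n ∈ Icc 1 N, ((n : ℝ) / (Nat.totient n : ℝ)) ^ 2 ≤ C * N := by
    intro N
    refine le_trans (sum_le_sum fun n hn => ?_) (hC N)
    have h1 := ratio_one (mem_Icc.mp hn).1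
    exact pow_le_pow_right₀ h1 (by norm_num)
  have key : ∀ H : ℕ, 1 ≤ H → ∑ h ∈ Icc 1 H, ((h : ℝ) / (Nat.totient h : ℝ)) ^ 2 / h ≤
      (∑ h ∈ Icc 1 H, ((h : ℝ) / (Nat.totient h : ℝ)) ^ 2) / H + C * ∑ k ∈ Icc 1 H, (k : ℝ)⁻¹ := by
    intro H hH
    induction H, hH using Nat.le_induction with
    | base =>
      have h1 := hG 1
      simp only [Icc_self, sum_singleton, Nat.cast_one, Nat.totient_one] at h1 ⊢
      norm_num at h1 ⊢
      linarith
    | succ H hH ih =>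
      rw [sum_Icc_succ_top (by omega), sum_Icc_succ_top (by omega), sum_Icc_succ_top (by omega)]
      have hH0 : (0 : ℝ) < H := by exact_mod_cast hH
      have h1 := hG H
      set G := ∑ h ∈ Icc 1 H, ((h : ℝ) / (Nat.totient h : ℝ)) ^ 2 with hGd
      set a := (((H + 1 : ℕ) : ℝ) / (Nat.totient (H + 1) : ℝ)) ^ 2 with ha
      have e1 : G / H - G / ((H + 1 : ℕ) : ℝ) ≤ C * ((H + 1 : ℕ) : ℝ)⁻¹ := by
        push_cast
        have : G / H - G / ((H : ℝ) + 1) = (G / H) * ((H : ℝ) + 1)⁻¹ := by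
          field_simp; ring
        rw [this]
        apply mul_le_mul_of_nonneg_right _ (by positivity)
        rw [div_le_iff₀ hH0]; exact h1
      have e2 : (G + a) / ((H + 1 : ℕ) : ℝ) = G / ((H + 1 : ℕ) : ℝ) + a / ((H + 1 : ℕ) : ℝ) := by
        rw [add_div]
      rw [e2, mul_add]
      linarith
  have h2 := key H hH
  have hH0 : (0 : ℝ) < H := by exact_mod_cast hH
  have h3 : (∑ h ∈ Icc 1 H, ((h : ℝ) / (Nat.totient h : ℝ)) ^ 2) / H ≤ C := by
    rw [div_le_iff₀ hH0]; exact hG H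
  have hC0 : 0 ≤ C := by
    have := hG 1
    simp only [Icc_self, sum_singleton, Nat.cast_one, Nat.totient_one] at this
    norm_num at this
    linarith
  have h4 : ∑ k ∈ Icc 1 H, (k : ℝ)⁻¹ ≤ 1 + Real.log H := by
    have := harmonic_le_one_add_log H
    rw [harmonic_eq_sum_Icc] at this
    push_cast at this
    exact this
  nlinarith [mul_le_mul_of_nonneg_left h4 hC0]

open Classical in
/-- few primes `m` are such that `m - 1` has a prime factor larger than `n ^ (1 - τ)` -/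
theorem large_factor : ∃ C : ℝ, 1 ≤ C ∧ ∀ τ : ℝ, 0 < τ → τ ≤ 1 / 4 →
    ∃ n₀ : ℕ, ∀ n : ℕ, n₀ ≤ n →
      (((Icc 1 n).filter (fun m => m.Prime ∧ ∃ q : ℕ, q.Prime ∧ (n : ℝ) ^ (1 - τ) < q ∧
        q ∣ m - 1)).card : ℝ) ≤ C * τ * n / Real.log n := by
  obtain ⟨C1, hC1, hs⟩ := Pool.Agent.Helper112.E456.sieve_two
  obtain ⟨C2, hC2⟩ := Pool.Agent.Erdos456.Mert.totRatio_moment
  have hC20 : 1 ≤ C2 := by
    have := hC2 1
    simp only [Icc_self, sum_singleton, Nat.cast_one, Nat.totient_one] at this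
    norm_num at this
    linarith
  refine ⟨max 1 (8 * C1 * C2), le_max_left _ _, fun τ hτ hτ4 => ?_⟩
  refine ⟨max 16 ⌈Real.exp (2 / τ)⌉₊, fun n hn => ?_⟩
  have hn16 : 16 ≤ n := le_trans (le_max_left _ _) hn
  have hn16' : (16 : ℝ) ≤ n := by exact_mod_cast hn16
  have hn0 : (0 : ℝ) < n := by linarith
  have hlog : 2 / τ ≤ Real.log n := by
    rw [Real.le_log_iff_exp_le hn0]
    exact le_trans (Nat.le_ceil _) (by exact_mod_cast le_trans (le_max_right _ _) hn)
  have hlog0 : 0 < Real.log n := lt_of_lt_of_le (by positivity) hlog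
  -- number of cofactors
  set H : ℕ := ⌊(n : ℝ) ^ τ⌋₊ with hH
  have hH1 : 1 ≤ H := by
    rw [hH, Nat.one_le_floor_iff]
    exact Real.one_le_rpow (by linarith) hτ.le
  have hHle : (H : ℝ) ≤ (n : ℝ) ^ τ := Nat.floor_le (by positivity)
  have hquart : (n : ℝ) ^ τ ≤ (n : ℝ) ^ (1 / 4 : ℝ) :=
    Real.rpow_le_rpow_of_exponent_le (by linarith) hτ4
  set T : ℕ → Finset ℕ := fun h =>
    (Icc 1 (n / h)).filter (fun q => (1 * q + 0).Prime ∧ (h * q + 1).Prime) with hT
  -- the support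
  set S : Finset ℕ := (Icc 1 n).filter
    (fun m => m.Prime ∧ ∃ q : ℕ, q.Prime ∧ (n : ℝ) ^ (1 - τ) < q ∧ q ∣ m - 1) with hS
  have hsub : S ⊆ (Icc 1 H).biUnion (fun h => (T h).image (fun q => h * q + 1)) := by
    intro m hm
    rw [hS, mem_filter, mem_Icc] at hm
    obtain ⟨⟨h1, h2⟩, hmp, q, hq, hq2, k, hk⟩ := hm
    have hm2 := hmp.two_le
    have hk0 : 1 ≤ k := by
      rcases Nat.eq_zero_or_pos k with h0 | h0
      · rw [h0] at hk; omega
      · exact h0
    have hmeq : m = k * q + 1 := by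
      have : m - 1 = k * q := by rw [hk]; ring
      omega
    have hkq : k * q ≤ n := by omega
    have hq0 : (0 : ℝ) < q := by exact_mod_cast hq.pos
    rw [mem_biUnion]
    refine ⟨k, ?_, ?_⟩
    · rw [mem_Icc]
      refine ⟨hk0, ?_⟩
      rw [hH]
      apply Nat.le_floor
      have e1 : (k : ℝ) * q ≤ n := by exact_mod_cast hkq
      have e2 : (n : ℝ) = (n : ℝ) ^ τ * (n : ℝ) ^ (1 - τ) := by
        rw [← Real.rpow_add hn0]; norm_num
      have e3 : (n : ℝ) ^ τ * (n : ℝ) ^ (1 - τ) ≤ (n : ℝ) ^ τ * q :=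
        mul_le_mul_of_nonneg_left hq2.le (by positivity)
      have e4 : (k : ℝ) * q ≤ (n : ℝ) ^ τ * q := by linarith
      exact le_of_mul_le_mul_right e4 hq0
    · rw [mem_image]
      refine ⟨q, ?_, hmeq.symm⟩
      rw [hT, mem_filter, mem_Icc]
      refine ⟨⟨hq.one_lt.le, ?_⟩, by simpa using hq, by rw [← hmeq]; exact hmp⟩
      rw [Nat.le_div_iff_mul_le (by omega)]
      rw [mul_comm]; exact hkq
  have hcard : (S.card : ℝ) ≤ ∑ h ∈ Icc 1 H, ((T h).card : ℝ) := by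
    have h1 : S.card ≤ ∑ h ∈ Icc 1 H, (T h).card := by
      refine (card_le_card hsub).trans (card_biUnion_le.trans ?_)
      exact sum_le_sum fun h _ => card_image_le
    exact_mod_cast h1
  have hTb : ∀ h ∈ Icc 1 H, ((T h).card : ℝ) ≤
      (4 * C1 * n / (Real.log n) ^ 2) * (((h : ℝ) / (Nat.totient h : ℝ)) ^ 2 / h) := by
    intro h hh
    rw [mem_Icc] at hh
    have hh0 : (0 : ℝ) < h := by exact_mod_cast hh.1
    have hhle : (h : ℝ) ≤ (n : ℝ) ^ (1 / 4 : ℝ) :=
      le_trans (by exact_mod_cast hh.2) (hHle.trans hquart)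
    -- n / h is large
    have hNlow : (n : ℝ) ^ (1 / 2 : ℝ) ≤ ((n / h : ℕ) : ℝ) := by
      have e1 : (n : ℝ) / h - 1 ≤ ((n / h : ℕ) : ℝ) := by
        have := Nat.lt_floor_add_one ((n : ℝ) / h)
        rw [Nat.floor_div_eq_div] at this
        linarith
      have e2 : (n : ℝ) ^ (3 / 4 : ℝ) ≤ (n : ℝ) / h := by
        rw [le_div_iff₀ hh0]
        calc (n : ℝ) ^ (3 / 4 : ℝ) * h ≤ (n : ℝ) ^ (3 / 4 : ℝ) * (n : ℝ) ^ (1 / 4 : ℝ) := by
              apply mul_le_mul_of_nonneg_left hhle (by positivity)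
          _ = n := by rw [← Real.rpow_add hn0]; norm_num
      have e3 : (n : ℝ) ^ (3 / 4 : ℝ) = (n : ℝ) ^ (1 / 2 : ℝ) * (n : ℝ) ^ (1 / 4 : ℝ) := by
        rw [← Real.rpow_add hn0]; norm_num
      have e4 : (2 : ℝ) ≤ (n : ℝ) ^ (1 / 4 : ℝ) := by
        calc (2 : ℝ) = (16 : ℝ) ^ (1 / 4 : ℝ) := by
              rw [show (16 : ℝ) = 2 ^ (4 : ℝ) by norm_num, ← Real.rpow_mul (by norm_num)]
              norm_num
          _ ≤ (n : ℝ) ^ (1 / 4 : ℝ) := Real.rpow_le_rpow (by norm_num) hn16' (by norm_num)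
      have e5 : (1 : ℝ) ≤ (n : ℝ) ^ (1 / 2 : ℝ) := Real.one_le_rpow (by linarith) (by norm_num)
      nlinarith
    have h4 : (4 : ℝ) ≤ (n : ℝ) ^ (1 / 2 : ℝ) := by
      calc (4 : ℝ) = (16 : ℝ) ^ (1 / 2 : ℝ) := by
            rw [show (16 : ℝ) = 4 ^ (2 : ℝ) by norm_num, ← Real.rpow_mul (by norm_num)]
            norm_num
        _ ≤ (n : ℝ) ^ (1 / 2 : ℝ) := Real.rpow_le_rpow (by norm_num) hn16' (by norm_num)
    have hN2 : 2 ≤ n / h := by
      have : (4 : ℝ) ≤ ((n / h : ℕ) : ℝ) := h4.trans hNlow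
      have : 4 ≤ n / h := by exact_mod_cast this
      omega
    have hNlog : Real.log n / 2 ≤ Real.log ((n / h : ℕ) : ℝ) := by
      have e1 : Real.log ((n : ℝ) ^ (1 / 2 : ℝ)) = Real.log n / 2 := by
        rw [Real.log_rpow hn0]; ring
      rw [← e1]
      exact Real.log_le_log (by positivity) hNlow
    have hNle : ((n / h : ℕ) : ℝ) ≤ (n : ℝ) / h := Nat.cast_div_le
    have hsv := hs 1 0 h 1 (n / h) (by norm_num) (by omega) (by norm_num) (by simp)
      (by simp) hN2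
    have hD : 1 * h * (((1 * 1 : ℕ) : ℤ) - ((h * 0 : ℕ) : ℤ)).natAbs = h := by simp
    rw [hD] at hsv
    refine hsv.trans ?_
    have hlogsq : (Real.log n / 2) ^ 2 ≤ (Real.log ((n / h : ℕ) : ℝ)) ^ 2 := by
      apply pow_le_pow_left₀ (by positivity) hNlog
    calc C1 * ((h : ℝ) / (Nat.totient h : ℝ)) ^ 2 * ((n / h : ℕ) : ℝ) /
          (Real.log ((n / h : ℕ) : ℝ)) ^ 2
        ≤ C1 * ((h : ℝ) / (Nat.totient h : ℝ)) ^ 2 * ((n : ℝ) / h) / (Real.log n / 2) ^ 2 := by
          apply div_le_div₀ (by positivity) _ (by positivity) hlogsq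
          apply mul_le_mul_of_nonneg_left hNle (by positivity)
      _ = _ := by field_simp; ring
  have hsum : (S.card : ℝ) ≤ (4 * C1 * n / (Real.log n) ^ 2) * (C2 * (2 + Real.log H)) := by
    refine hcard.trans ((sum_le_sum hTb).trans ?_)
    rw [← mul_sum]
    exact mul_le_mul_of_nonneg_left (ratio_sum C2 hC2 H hH1) (by positivity)
  have hlogH : Real.log H ≤ τ * Real.log n := by
    have e1 : Real.log H ≤ Real.log ((n : ℝ) ^ τ) :=
      Real.log_le_log (by exact_mod_cast hH1) hHle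
    rwa [Real.log_rpow hn0] at e1
  have h2le : 2 ≤ τ * Real.log n := by
    rw [div_le_iff₀ hτ] at hlog; linarith
  calc (S.card : ℝ) ≤ ((4 * C1 * n / (Real.log n) ^ 2) * (C2 * (2 + Real.log H))) := hsum
    _ ≤ ((4 * C1 * n / (Real.log n) ^ 2) * (C2 * (2 * (τ * Real.log n)))) := by
        apply mul_le_mul_of_nonneg_left _ (by positivity)
        apply mul_le_mul_of_nonneg_left _ (by linarith)
        linarith
    _ = 8 * C1 * C2 * τ * n / Real.log n := by field_simp; ring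
    _ ≤ max 1 (8 * C1 * C2) * τ * n / Real.log n := by
        apply div_le_div_of_nonneg_right _ hlog0.le
        apply mul_le_mul_of_nonneg_right _ hn0.le
        exact mul_le_mul_of_nonneg_right (le_max_right _ _) hτ.le

open Filter Topology NumberField

open Classical in
/-- many primes have a homomorphism from the ring of integers -/
theorem primes_hom (K : Type) [Field K] [NumberField K] : ∃ N₀ : ℕ, ∀ N : ℕ, N₀ ≤ N →
    (N : ℝ) / (2 * Module.finrank ℚ K * Real.log N) ≤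
      (((Icc 1 N).filter (fun p => p.Prime ∧ Nonempty (𝓞 K →+* ZMod p))).card : ℝ) := by
  have h1 := Pool.Agent.H484R2.pit K
  have h2 : Tendsto (fun N : ℕ => (Nat.primeCounting N : ℝ) * Real.log N / N) atTop (𝓝 1) := by
    have := Pool.Agent.Helper923.PNT.pi_tendsto.comp (tendsto_natCast_atTop_atTop (R := ℝ))
    refine this.congr fun N => ?_
    simp only [Function.comp, Nat.floor_natCast]
  have e1 := h1.eventually (eventually_ge_nhds (show (3 / 4 : ℝ) < 1 by norm_num))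
  have e2 := h2.eventually (eventually_ge_nhds (show (3 / 4 : ℝ) < 1 by norm_num))
  obtain ⟨N₀, hN₀⟩ := eventually_atTop.1 (e1.and (e2.and (eventually_ge_atTop 3)))
  refine ⟨N₀, fun N hN => ?_⟩
  obtain ⟨g1, g2, hN3⟩ := hN₀ N hN
  have hd : (0 : ℝ) < Module.finrank ℚ K := by exact_mod_cast Module.finrank_pos
  have hN0 : (0 : ℝ) < N := by exact_mod_cast (by omega : 0 < N)
  have hlog : 0 < Real.log N := Real.log_pos (by exact_mod_cast (by omega : 1 < N))
  have hpi : 0 < (Nat.primeCounting N : ℝ) := by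
    by_contra h
    have : (Nat.primeCounting N : ℝ) = 0 := le_antisymm (not_lt.1 h) (Nat.cast_nonneg _)
    rw [this] at g2
    norm_num at g2
  rw [le_div_iff₀ hN0] at g2
  rw [le_div_iff₀ hpi] at g1
  set W := (Icc 1 N).filter (fun p => p.Prime ∧ Nonempty (𝓞 K →+* ZMod p)) with hW
  have h3 : ∑ p ∈ (Finset.range (N + 1)).filter Nat.Prime, (Nat.card (𝓞 K →+* ZMod p) : ℝ) ≤
      Module.finrank ℚ K * W.card := by
    have hsub : W ⊆ (Finset.range (N + 1)).filter Nat.Prime := by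
      intro p hp
      rw [hW, mem_filter, mem_Icc] at hp
      rw [mem_filter, mem_range]
      exact ⟨by omega, hp.2.1⟩
    rw [← sum_subset hsub]
    · calc ∑ p ∈ W, (Nat.card (𝓞 K →+* ZMod p) : ℝ) ≤ ∑ p ∈ W, (Module.finrank ℚ K : ℝ) := by
            apply sum_le_sum
            intro p hp
            rw [hW, mem_filter] at hp
            exact H332.PIT.hc_cast_le hp.2.1
        _ = _ := by rw [sum_const, nsmul_eq_mul, mul_comm]
    · intro p hp hpW
      rw [mem_filter, mem_range] at hp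
      have : ¬ Nonempty (𝓞 K →+* ZMod p) := by
        intro h
        apply hpW
        rw [hW, mem_filter, mem_Icc]
        exact ⟨⟨hp.2.one_lt.le, by omega⟩, hp.2, h⟩
      rw [not_nonempty_iff] at this
      rw [Nat.card_of_isEmpty, Nat.cast_zero]
  rw [div_le_iff₀ (by positivity)]
  have h4 : 3 / 4 * (Nat.primeCounting N : ℝ) ≤ Module.finrank ℚ K * W.card := g1.trans h3
  have h5 : 3 / 4 * (Nat.primeCounting N : ℝ) * Real.log N ≤
      Module.finrank ℚ K * W.card * Real.log N := by gcongr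
  nlinarith

open Classical in
/-- **Smooth shifted primes of degree one.** -/
theorem smooth_primes : ∃ C : ℝ, 1 ≤ C ∧ ∀ (K : Type) [Field K] [NumberField K] (τ : ℝ),
    0 < τ → τ ≤ 1 / 4 → C * τ * (4 * Module.finrank ℚ K) ≤ 1 → ∃ T₀ : ℕ, ∀ T : ℕ, T₀ ≤ T →
    (T : ℝ) / (4 * Module.finrank ℚ K * Real.log T) ≤
      (((Icc 1 T).filter (fun t => t.Prime ∧ Nonempty (𝓞 K →+* ZMod t) ∧
        ∀ q : ℕ, q.Prime → q ∣ t - 1 → (q : ℝ) ≤ (T : ℝ) ^ (1 - τ))).card : ℝ) := by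
  obtain ⟨C, hC, hlarge⟩ := large_factor
  refine ⟨C, hC, fun K _ _ τ h0 h1 hCτ => ?_⟩
  obtain ⟨N₁, hN₁⟩ := hlarge τ h0 h1
  obtain ⟨N₂, hN₂⟩ := primes_hom K
  refine ⟨max (max N₁ N₂) 3, fun T hT => ?_⟩
  have g1 := hN₁ T (((le_max_left _ _).trans (le_max_left _ _)).trans hT)
  have g2 := hN₂ T (((le_max_right _ _).trans (le_max_left _ _)).trans hT)
  have hT3 : 3 ≤ T := (le_max_right _ _).trans hT
  have hd : (0 : ℝ) < Module.finrank ℚ K := by exact_mod_cast Module.finrank_pos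
  have hT0 : (0 : ℝ) < T := by exact_mod_cast (by omega : 0 < T)
  have hlog : 0 < Real.log T := Real.log_pos (by exact_mod_cast (by omega : 1 < T))
  set A := (Icc 1 T).filter (fun p => p.Prime ∧ Nonempty (𝓞 K →+* ZMod p)) with hA
  set B := (Icc 1 T).filter (fun m => m.Prime ∧ ∃ q : ℕ, q.Prime ∧ (T : ℝ) ^ (1 - τ) < q ∧
        q ∣ m - 1) with hB
  set G := (Icc 1 T).filter (fun t => t.Prime ∧ Nonempty (𝓞 K →+* ZMod t) ∧
        ∀ q : ℕ, q.Prime → q ∣ t - 1 → (q : ℝ) ≤ (T : ℝ) ^ (1 - τ)) with hG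
  have hsub : A ⊆ G ∪ B := by
    intro t ht
    rw [hA, mem_filter] at ht
    rw [mem_union]
    by_cases h : ∀ q : ℕ, q.Prime → q ∣ t - 1 → (q : ℝ) ≤ (T : ℝ) ^ (1 - τ)
    · left
      rw [hG, mem_filter]
      exact ⟨ht.1, ht.2.1, ht.2.2, h⟩
    · right
      push Not at h
      obtain ⟨q, hq, hqt, hqT⟩ := h
      rw [hB, mem_filter]
      exact ⟨ht.1, ht.2.1, q, hq, hqT, hqt⟩
  have h3 : (A.card : ℝ) ≤ G.card + B.card := by
    exact_mod_cast (card_le_card hsub).trans (card_union_le _ _)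
  have h4 : C * τ * T / Real.log T ≤ T / (4 * Module.finrank ℚ K * Real.log T) := by
    rw [div_le_div_iff₀ hlog (by positivity)]
    have : C * τ * T * (4 * Module.finrank ℚ K * Real.log T) =
      (C * τ * (4 * Module.finrank ℚ K)) * (T * Real.log T) := by ring
    rw [this]
    have h6 : 0 ≤ (T : ℝ) * Real.log T := by positivity
    nlinarith
  have h5 : (T : ℝ) / (2 * Module.finrank ℚ K * Real.log T) =
      2 * (T / (4 * Module.finrank ℚ K * Real.log T)) := by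
    field_simp
    ring
  linarith

end Pool.Agent.TH194.NF
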