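import Mathlib
import Pool.Agent.TH194.NF.Ssp
import Pool.Agent.TH194.NF.Cnt
import Pool.Agent.TH194.NF.Par
import Pool.Agent.TH194.BL.FinW2

/-!
Project NF: cubes.
-/

set_option autoImplicit false

namespace Pool.Agent.TH194.NF

open Finset Filter NumberField
open Pool.Agent.TH194.BL.W (HH)

/-- the lower bound for the sieve sum -/
theorem sieve_sumK {k M d T₀ : ℕ} {σ ε nb L : ℝ} (hσ : 0 < σ) (hp : ParK k M d T₀ σ ε nb L)
    {n j : ℕ} (hn : 2 ^ (M + 2) * L ^ (1 + σ / 4) ≤ n) (hj1 : (j : ℝ) ≤ L)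
    (hj2 : L / 4 ≤ (j + 1) * Real.log L) :
    Real.exp (3 * σ / 64 * L) ≤ (n.choose j : ℝ) * ((1 / 2) ^ (M + 1)) ^ j := by
  have hL0 : 0 < L := lt_of_lt_of_le one_pos hp.l1
  have hll : 0 < Real.log L := lt_of_lt_of_le two_pos hp.ll
  have hLs : 1 ≤ L ^ (σ / 4) := Real.one_le_rpow hp.l1 (by positivity)
  have e1 : L ^ (1 + σ / 4) = L * L ^ (σ / 4) := by
    rw [Real.rpow_add hL0, Real.rpow_one]
  have hM1 : (1 : ℝ) ≤ 2 ^ M := one_le_pow₀ (by norm_num)
  have hn2 : 2 * L ≤ n := by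
    refine le_trans ?_ hn
    rw [e1]
    have : (4 : ℝ) ≤ 2 ^ (M + 2) := by
      rw [pow_add]
      linarith
    calc 2 * L ≤ 4 * (L * 1) := by linarith
      _ ≤ 2 ^ (M + 2) * (L * L ^ (σ / 4)) := by gcongr
  have h2j : 2 * j ≤ n := by
    have : (2 * j : ℝ) ≤ n := by linarith
    exact_mod_cast this
  have c1 := Pool.Agent.TH194.BL.choose_lower' h2j
  have hr : L ^ (σ / 4) ≤ (n : ℝ) / (2 * L) * (1 / 2) ^ (M + 1) := by
    have e0 : (n : ℝ) / (2 * L) * (1 / 2) ^ (M + 1) = (n : ℝ) / (2 * L * 2 ^ (M + 1)) := by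
      rw [one_div, inv_pow]
      field_simp
    rw [e0, le_div_iff₀ (by positivity)]
    refine le_trans (le_of_eq ?_) hn
    rw [e1, show M + 2 = (M + 1) + 1 by ring, pow_succ]
    ring
  have hpow : (L ^ (σ / 4)) ^ j ≤ (n.choose j : ℝ) * ((1 / 2) ^ (M + 1)) ^ j := by
    calc (L ^ (σ / 4)) ^ j ≤ ((n : ℝ) / (2 * L) * (1 / 2) ^ (M + 1)) ^ j :=
          pow_le_pow_left₀ (by positivity) hr j
      _ = ((n : ℝ) / (2 * L)) ^ j * ((1 / 2) ^ (M + 1)) ^ j := by rw [mul_pow]
      _ ≤ ((n : ℝ) / (2 * j)) ^ j * ((1 / 2) ^ (M + 1)) ^ j := by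
          apply mul_le_mul_of_nonneg_right _ (by positivity)
          rcases Nat.eq_zero_or_pos j with rfl | hj
          · simp
          have hj0 : (0 : ℝ) < j := by exact_mod_cast hj
          apply pow_le_pow_left₀ (by positivity)
          gcongr
      _ ≤ _ := by
          apply mul_le_mul_of_nonneg_right c1 (by positivity)
  refine le_trans ?_ hpow
  have e3 : (L ^ (σ / 4)) ^ j = Real.exp (σ / 4 * Real.log L * j) := by
    rw [Real.rpow_def_of_pos hL0, ← Real.exp_nat_mul]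
    congr 1
    ring
  rw [e3]
  apply Real.exp_le_exp.2
  have s1 : σ / 4 * (L / 4) ≤ σ / 4 * ((j + 1) * Real.log L) := by gcongr
  have s2 : σ / 4 * (16 * Real.log L) ≤ σ / 4 * L := by
    apply mul_le_mul_of_nonneg_left hp.c8 (by positivity)
  nlinarith

theorem one_cubeK : ∃ C : ℝ, 1 ≤ C ∧ ∀ (K : Type) [Field K] [NumberField K] (d : ℕ)
    (b : Module.Basis (Fin d) ℤ (𝓞 K)) (k M : ℕ) (ε : ℝ), 0 < ε → ε ≤ 1 →
    ∃ N₀ : ℕ, ∀ N : ℕ, N₀ ≤ N → ∀ a : Fin k × Fin d → ℤ, ∀ E : Finset (Fin k × Fin d → ℤ),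
    (∀ z ∈ E, (∀ i, a i < z i ∧ z i ≤ a i + N) ∧ z ∈ ExcK b k M (HH N ε)) →
    (E.card : ℝ) ≤ (N : ℝ) ^ ((k * d : ℝ) - 1 / (512 * C * d)) := by
  classical
  obtain ⟨C, hC, hsm⟩ := smooth_primes
  refine ⟨C, hC, fun K _ _ d b k M ε h0 h1 => ?_⟩
  have hdK : Module.finrank ℚ K = d := by
    have e1 := Module.finrank_eq_card_basis b
    rw [Fintype.card_fin, RingOfIntegers.rank] at e1
    exact e1
  have hd : 0 < d := by
    rw [← hdK]
    exact Module.finrank_pos
  have hd1 : (1 : ℝ) ≤ d := by exact_mod_cast hd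
  have hCd : 1 ≤ C * d := by nlinarith
  have hCd0 : 0 < C * d := by linarith
  set τ : ℝ := 1 / (4 * (C * d)) with hτ
  set σ : ℝ := 1 / (8 * (C * d)) with hσ
  have hτ0 : 0 < τ := by positivity
  have hσ0 : 0 < σ := by positivity
  have hτσ : τ = 2 * σ := by
    rw [hτ, hσ]
    field_simp
    norm_num
  have hτ1 : τ ≤ 1 / 4 := by
    rw [hτ]
    apply div_le_div_of_nonneg_left (by norm_num) (by norm_num)
    linarith
  have hσ1 : σ ≤ 1 / 8 := by linarith
  obtain ⟨T₀, hT₀⟩ := hsm K τ hτ0 hτ1 (by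
    rw [hdK, hτ]
    apply le_of_eq
    field_simp)
  set nB : ℝ := (ClassGroup.normBound AbsoluteValue.abs b : ℝ) with hnB
  have hnB0 : 0 < nB := by
    have := ClassGroup.normBound_pos AbsoluteValue.abs b
    rw [hnB]
    exact_mod_cast this
  set nb : ℝ := |Real.log nB| + d * Real.log (M + 1) with hnb
  have hev := (Real.tendsto_log_atTop.comp tendsto_natCast_atTop_atTop).eventually
    (ev_parK k M d (max T₀ 2) hd hσ0 (by linarith) h0 h1 nb)
  obtain ⟨N₀, hN₀⟩ := eventually_atTop.1 hev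
  refine ⟨max N₀ 1, fun N hN a E hE => ?_⟩
  have hN1 : 1 ≤ N := (le_max_right _ _).trans hN
  have hp : ParK k M d (max T₀ 2) σ ε nb (Real.log N) := hN₀ N ((le_max_left _ _).trans hN)
  set L := Real.log N with hL
  have hNR : (0 : ℝ) < N := by exact_mod_cast hN1
  have hNexp : (N : ℝ) = Real.exp L := (Real.exp_log hNR).symm
  have hL0 : 0 < L := lt_of_lt_of_le one_pos hp.l1
  have hll : 0 < Real.log L := lt_of_lt_of_le two_pos hp.ll
  set T := ⌊L ^ (1 + σ)⌋₊ with hT
  have hTR : (T : ℝ) ≤ L ^ (1 + σ) := Nat.floor_le (by positivity)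
  have hTmax : max T₀ 2 ≤ T := by
    apply Nat.le_floor
    have := hp.t0
    linarith
  have hT2 : 2 ≤ T := (le_max_right _ _).trans hTmax
  have hTT₀ : T₀ ≤ T := (le_max_left _ _).trans hTmax
  have hT0 : (0 : ℝ) < T := by exact_mod_cast (by omega : 0 < T)
  have hTlow : L ^ (1 + σ) / 2 ≤ T := by
    have e1 := Nat.lt_floor_add_one (L ^ (1 + σ))
    have e2 : (2 : ℝ) ≤ T := by exact_mod_cast hT2
    rw [← hT] at e1
    linarith
  have hlogT : Real.log T ≤ 2 * Real.log L := by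
    have e1 := Real.log_le_log hT0 hTR
    rw [Real.log_rpow hL0] at e1
    have e2 : (1 + σ) * Real.log L ≤ 2 * Real.log L := by
      apply mul_le_mul_of_nonneg_right _ hll.le
      linarith
    linarith
  have hlogT0 : 0 < Real.log T := Real.log_pos (by exact_mod_cast (by omega : 1 < T))
  -- primes
  set P₀ := (Icc 1 T).filter (fun t => t.Prime ∧ Nonempty (𝓞 K →+* ZMod t) ∧
        ∀ q : ℕ, q.Prime → q ∣ t - 1 → (q : ℝ) ≤ (T : ℝ) ^ (1 - τ)) with hP₀
  have hP₀c : L ^ (1 + σ) / (16 * d * Real.log L) ≤ (P₀.card : ℝ) := by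
    have h := hT₀ T hTT₀
    rw [hdK] at h
    refine le_trans ?_ h
    rw [div_le_div_iff₀ (by positivity) (by positivity)]
    calc L ^ (1 + σ) * (4 * d * Real.log T) ≤ (2 * T) * (4 * d * (2 * Real.log L)) := by
          apply mul_le_mul (by linarith) _ (by positivity) (by positivity)
          apply mul_le_mul_of_nonneg_left hlogT (by positivity)
      _ = T * (16 * d * Real.log L) := by ring
  set P := P₀.filter (fun t => k * 2 ^ (M + 1) ≤ t) with hP
  have hPc : 2 ^ (M + 2) * L ^ (1 + σ / 4) + L ≤ (P.card : ℝ) := by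
    have c1 : P₀.card ≤ P.card + k * 2 ^ (M + 1) := by
      have : P₀ ⊆ P ∪ Icc 1 (k * 2 ^ (M + 1)) := by
        intro t ht
        rw [mem_union, hP, mem_filter, mem_Icc]
        have h1 : 1 ≤ t := by
          rw [hP₀, mem_filter, mem_Icc] at ht
          exact ht.1.1
        rcases le_total (k * 2 ^ (M + 1)) t with h | h
        · left; exact ⟨ht, h⟩
        · right; exact ⟨h1, h⟩
      calc P₀.card ≤ (P ∪ Icc 1 (k * 2 ^ (M + 1))).card := card_le_card this
        _ ≤ P.card + (Icc 1 (k * 2 ^ (M + 1))).card := card_union_le _ _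
        _ = _ := by rw [Nat.card_Icc, Nat.add_sub_cancel]
    have c2 : (P₀.card : ℝ) ≤ P.card + ((k * 2 ^ (M + 1) : ℕ) : ℝ) := by exact_mod_cast c1
    push_cast at c2
    have c3 := hp.c7
    linarith
  have hPmem : ∀ t ∈ P, t ≤ T ∧ t.Prime ∧ Nonempty (𝓞 K →+* ZMod t) ∧
      (∀ p : ℕ, p.Prime → p ∣ t - 1 → (p : ℝ) ≤ (T : ℝ) ^ (1 - τ)) ∧
      k * 2 ^ (M + 1) ≤ t := by
    intro t ht
    rw [hP, mem_filter, hP₀, mem_filter, mem_Icc] at ht
    exact ⟨ht.1.1.2, ht.1.2.1, ht.1.2.2.1, ht.1.2.2.2, ht.2⟩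
  -- small primes
  set Y' := L ^ (1 - σ) with hY'
  set S := (Icc 1 ⌊Y'⌋₊).filter (fun p : ℕ => p.Prime) with hS
  have hY'0 : 0 < Y' := by positivity
  have hSc : (S.card : ℝ) ≤ Y' := by
    calc (S.card : ℝ) ≤ ((Icc 1 ⌊Y'⌋₊).card : ℝ) := by exact_mod_cast card_filter_le _ _
      _ = (⌊Y'⌋₊ : ℝ) := by rw [Nat.card_Icc, Nat.add_sub_cancel]
      _ ≤ Y' := Nat.floor_le hY'0.le
  have hSp : ∀ p ∈ S, p.Prime := fun p hp' => (mem_filter.1 hp').2
  have hSmem : ∀ p : ℕ, p.Prime → (p : ℝ) ≤ Y' → p ∈ S := by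
    intro p hpp hpY
    rw [hS, mem_filter, mem_Icc]
    exact ⟨⟨hpp.one_le, Nat.le_floor hpY⟩, hpp⟩
  have hTth : (T : ℝ) ^ (1 - τ) ≤ Y' := by
    calc (T : ℝ) ^ (1 - τ) ≤ (L ^ (1 + σ)) ^ (1 - τ) :=
          Real.rpow_le_rpow hT0.le hTR (by linarith)
      _ = L ^ ((1 + σ) * (1 - τ)) := by rw [← Real.rpow_mul hL0.le]
      _ ≤ Y' := by
          apply Real.rpow_le_rpow_of_exponent_le hp.l1
          rw [hτσ]
          nlinarith
  -- j and Q
  set Q := Nat.sqrt N with hQ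
  have hQ2 : Q ^ 2 ≤ N := by rw [sq]; exact Nat.sqrt_le N
  have hQ1 : 1 ≤ Q := by
    rw [hQ, Nat.le_sqrt]
    omega
  set j := Nat.log T Q with hj
  have hTj : T ^ j ≤ Q := Nat.pow_log_le_self T (by omega)
  have hTj2 : Q < T ^ (j + 1) := Nat.lt_pow_succ_log_self (by omega) Q
  have hNQ : N < (Q + 1) ^ 2 := by rw [sq]; exact Nat.lt_succ_sqrt N
  have hj1 : (j : ℝ) ≤ L := by
    have a1 : (T : ℝ) ^ j ≤ Q := by exact_mod_cast hTj
    have a2 := Real.log_le_log (by positivity) a1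
    rw [Real.log_pow] at a2
    have a3 : Real.log Q ≤ L / 2 := by
      have a4 : ((Q : ℝ)) ^ 2 ≤ N := by exact_mod_cast hQ2
      have a5 := Real.log_le_log (by positivity) a4
      rw [Real.log_pow] at a5
      push_cast at a5
      linarith
    have a6 : (1 / 2 : ℝ) ≤ Real.log T := by
      have a7 := Real.log_le_log (by norm_num : (0 : ℝ) < 2)
        (by exact_mod_cast hT2 : (2 : ℝ) ≤ T)
      have := Real.log_two_gt_d9
      linarith
    have a4 : (j : ℝ) * (1 / 2) ≤ j * Real.log T := by gcongr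
    linarith
  have hj2 : L / 4 ≤ (j + 1) * Real.log L := by
    have a1 : N < (T ^ (j + 1)) ^ 2 := lt_of_lt_of_le hNQ (Nat.pow_le_pow_left hTj2 2)
    have a2 : (N : ℝ) ≤ ((T : ℝ) ^ (j + 1)) ^ 2 := by exact_mod_cast a1.le
    have a3 := Real.log_le_log hNR a2
    rw [← pow_mul, Real.log_pow, ← hL] at a3
    push_cast at a3
    have a4 : ((j : ℝ) + 1) * 2 * Real.log T ≤ (j + 1) * 2 * (2 * Real.log L) := by gcongr
    linarith
  set H := HH N ε with hH
  have hHle : (H : ℝ) ≤ Real.exp (L ^ (1 - ε)) := Nat.floor_le (Real.exp_pos _).le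
  have hPprime : ∀ t ∈ P, t.Prime := fun t ht => (hPmem t ht).2.1
  set Bd : ℝ := Real.exp (3 * σ / 64 * L) with hBd
  set NB : ℝ := nB * ((M : ℝ) * H) ^ d with hNB
  have hBin : ∀ D ⊆ P, (∏ t ∈ D, (t : ℝ)) ≤ NB →
      Bd ≤ ((P \ D).card.choose j : ℝ) * ((1 / 2) ^ (M + 1)) ^ j := by
    intro D hD hprod
    apply sieve_sumK hσ0 hp _ hj1 hj2
    have c1 : (2 : ℝ) ^ D.card ≤ NB := by
      refine le_trans ?_ hprod
      rw [← prod_const]
      apply Finset.prod_le_prod
      · intro t _; norm_num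
      · intro t ht
        exact_mod_cast (hPprime t (hD ht)).two_le
    have hNBpos : 0 < NB := lt_of_lt_of_le (by positivity) c1
    have c2 := Real.log_le_log (by positivity) c1
    rw [Real.log_pow] at c2
    have c3 : Real.log NB ≤ nb + d * L ^ (1 - ε) := by
      have e1 : NB ≤ nB * (((M : ℝ) + 1) * Real.exp (L ^ (1 - ε))) ^ d := by
        rw [hNB]
        apply mul_le_mul_of_nonneg_left _ hnB0.le
        apply pow_le_pow_left₀ (by positivity)
        apply mul_le_mul (by linarith) hHle (by positivity) (by positivity)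
      have e2 := Real.log_le_log hNBpos e1
      have e4 : Real.log (nB * (((M : ℝ) + 1) * Real.exp (L ^ (1 - ε))) ^ d) =
          Real.log nB + d * (Real.log ((M : ℝ) + 1) + L ^ (1 - ε)) := by
        rw [Real.log_mul hnB0.ne' (by positivity), Real.log_pow,
          Real.log_mul (by positivity) (Real.exp_pos _).ne', Real.log_exp]
      rw [e4] at e2
      have e3 := le_abs_self (Real.log nB)
      rw [hnb]
      linarith
    have c4 : (D.card : ℝ) ≤ L := by
      have d5 : (0 : ℝ) < Real.log 2 := Real.log_pos (by norm_num)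
      exact le_of_mul_le_mul_right (c2.trans (c3.trans hp.c6)) d5
    have c5 : ((P \ D).card : ℝ) + D.card = P.card := by
      exact_mod_cast card_sdiff_add_card_eq_card hD
    linarith
  have hmain := card_excK_le b (k := k) (M := M) (H := H) (lam := lamS S T) (N := N) (Q := Q)
    (j := j) (B := Bd) (NB := NB) a (P := P) (fun t ht => Classical.choice (hPmem t ht).2.2.1)
    hN1 hQ2 hPprime
    (fun t ht => dvd_lamS (hPmem t ht).1 (hPmem t ht).2.1.two_le
      (fun p hpp hpt => hSmem p hpp (((hPmem t ht).2.2.2.1 p hpp hpt).trans hTth)))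
    (fun t ht => (hPmem t ht).2.2.2.2)
    (by
      intro D hD
      rw [mem_powersetCard] at hD
      calc ∏ t ∈ D, t ≤ ∏ t ∈ D, T := prod_le_prod' (fun t ht => (hPmem t (hD.1 ht)).1)
        _ = T ^ j := by rw [prod_const, hD.2]
        _ ≤ Q := hTj)
    (lamS_pos hSp) (Real.exp_pos _) le_rfl hBin E hE
  refine hmain.trans ?_
  -- numerical estimate
  have hlam0 : (0 : ℝ) < lamS S T := by exact_mod_cast lamS_pos hSp
  have n1 : (lamS S T : ℝ) ^ (k * M) * (2 * H + 1 : ℝ) ^ (d * M) ≤ Real.exp (σ / 64 * L) := by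
    have hpos : 0 < (lamS S T : ℝ) ^ (k * M) * (2 * H + 1 : ℝ) ^ (d * M) := by positivity
    rw [← Real.log_le_iff_le_exp hpos]
    rw [Real.log_mul (by positivity) (by positivity), Real.log_pow, Real.log_pow]
    have b1 : Real.log (lamS S T) ≤ 2 * (Y' + 1) * Real.log L := by
      have c1 := Real.log_le_log hlam0 (lamS_le (S := S) (T := T) (by omega))
      rw [Real.log_pow] at c1
      calc Real.log (lamS S T) ≤ S.card * Real.log T := c1
        _ ≤ (Y' + 1) * (2 * Real.log L) := by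
            apply mul_le_mul (by linarith) hlogT hlogT0.le (by linarith)
        _ = _ := by ring
    have b2 : Real.log (2 * H + 1 : ℝ) ≤ 2 + L ^ (1 - ε) := by
      have c1 : (2 * H + 1 : ℝ) ≤ 3 * Real.exp (L ^ (1 - ε)) := by
        have : (1 : ℝ) ≤ Real.exp (L ^ (1 - ε)) := Real.one_le_exp (by positivity)
        linarith
      have c2 := Real.log_le_log (by positivity) c1
      rw [Real.log_mul (by norm_num) (Real.exp_pos _).ne', Real.log_exp] at c2
      have c3 : Real.log 3 ≤ 2 := by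
        have := Real.log_le_sub_one_of_pos (show (0 : ℝ) < 3 by norm_num)
        linarith
      linarith
    have b3 : ((k * M : ℕ) : ℝ) * Real.log (lamS S T) ≤
        ((k * M : ℕ) : ℝ) * (2 * (Y' + 1) * Real.log L) := by gcongr
    have b4 : ((d * M : ℕ) : ℝ) * Real.log (2 * H + 1 : ℝ) ≤
        ((d * M : ℕ) : ℝ) * (2 + L ^ (1 - ε)) := by gcongr
    have e2 := hp.c4
    push_cast at b3 b4 ⊢
    linarith
  have n2 : (12 * (N : ℝ)) ^ Fintype.card (Fin k × Fin d) / Bd ≤
      Real.exp ((σ / 64 + k * d) * L - 3 * σ / 64 * L) := by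
    rw [sub_eq_add_neg, Real.exp_add, Real.exp_neg, ← div_eq_mul_inv]
    have c1 : (12 * (N : ℝ)) ^ Fintype.card (Fin k × Fin d) ≤ Real.exp ((σ / 64 + k * d) * L) := by
      rw [Fintype.card_prod, Fintype.card_fin, Fintype.card_fin, mul_pow, add_mul, Real.exp_add]
      apply mul_le_mul _ _ (by positivity) (by positivity)
      · rw [← Real.log_le_iff_le_exp (by positivity), Real.log_pow]
        refine le_trans (le_of_eq ?_) hp.c5
        push_cast
        ring
      · rw [hNexp, ← Real.exp_nat_mul]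
        push_cast
        exact le_rfl
    exact div_le_div_of_nonneg_right c1 (Real.exp_pos _).le
  calc (lamS S T : ℝ) ^ (k * M) * (2 * H + 1 : ℝ) ^ (d * M) *
        ((12 * (N : ℝ)) ^ Fintype.card (Fin k × Fin d) / Bd)
      ≤ Real.exp (σ / 64 * L) * Real.exp ((σ / 64 + k * d) * L - 3 * σ / 64 * L) := by
        apply mul_le_mul n1 n2 _ (by positivity)
        positivity
    _ = Real.exp (L * ((k * d : ℝ) - 1 / (512 * C * d))) := by
        rw [← Real.exp_add]
        congr 1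
        rw [hσ]
        field_simp
        ring
    _ = (N : ℝ) ^ ((k * d : ℝ) - 1 / (512 * C * d)) := by
        rw [Real.rpow_def_of_pos hNR]

end Pool.Agent.TH194.NF
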