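import Mathlib
import Pool.Agent.TH194.NF.Fin

/-!
Project NF: boxes, groups.
-/

set_option autoImplicit false

namespace Pool.Agent.TH194.NF

open Finset Filter NumberField
open Pool.Agent.TH194.BL.W (HH)

variable {K : Type} [Field K] [NumberField K] {d : ℕ} (b : Module.Basis (Fin d) ℤ (𝓞 K))

/-- the element of `K` with integral coordinates `v` -/
noncomputable def alg (v : Fin d → ℤ) : K := ∑ j, (v j : K) * algebraMap (𝓞 K) K (b j)

theorem alg_eq (v : Fin d → ℤ) : alg b v = algebraMap (𝓞 K) K (el b v) := by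
  unfold alg el
  rw [map_sum]
  apply sum_congr rfl
  intro j _
  rw [zsmul_eq_mul, map_mul, map_intCast]

/-- The exceptional points: one of the `k` algebraic integers vanishes, or some combination of `M`
elements of the group generated by them, whose coefficients have coordinates at most `h` and
nonzero sum, vanishes. -/
def Bad (k M : ℕ) (h : ℝ) : Set (Fin k → Fin d → ℤ) :=
  {z | (∃ l, alg b (z l) = 0) ∨ ∃ (x : Fin M → Fin k → ℤ) (c : Fin M → 𝓞 K),
    (∀ i j, |((b.repr (c i) j : ℤ) : ℝ)| ≤ h) ∧ ∑ i, c i ≠ 0 ∧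
      ∑ i, algebraMap (𝓞 K) K (c i) * ∏ l, alg b (z l) ^ x i l = 0}

theorem el_repr (c : 𝓞 K) : el b (fun j => b.repr c j) = c := by
  unfold el
  exact b.sum_repr c

theorem zero_mem {k M H : ℕ} (hM : 1 ≤ M) (hH : 1 ≤ H) (hd : 0 < d)
    {z : Fin k → Fin d → ℤ} {l₀ : Fin k} (hl₀ : alg b (z l₀) = 0) :
    (fun p : Fin k × Fin d => z p.1 p.2) ∈ ExcK b k M H := by
  classical
  have h0 : el b (z l₀) = 0 := by
    rw [alg_eq] at hl₀
    exact (FaithfulSMul.algebraMap_eq_zero_iff (𝓞 K) K).1 hl₀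
  set m₀ : Fin M := ⟨0, by omega⟩ with hm₀
  set j₀ : Fin d := ⟨0, hd⟩ with hj₀
  refine ⟨fun _ _ => 1, fun m j => if m = m₀ ∧ j = j₀ then 1 else 0, ?_, ?_, ?_⟩
  · intro i j
    show |(if i = m₀ ∧ j = j₀ then (1 : ℤ) else 0)| ≤ H
    split_ifs
    · rw [abs_one]; exact_mod_cast hH
    · rw [abs_zero]; exact_mod_cast Nat.zero_le H
  · have e1 : ∑ i, el b (fun j => if i = m₀ ∧ j = j₀ then (1 : ℤ) else 0) = b j₀ := by
      rw [sum_eq_single m₀]
      · unfold el
        rw [sum_eq_single j₀]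
        · simp
        · intro j _ hj
          simp [hj]
        · intro hj; exact absurd (mem_univ _) hj
      · intro i _ hi
        unfold el
        apply sum_eq_zero
        intro j _
        simp [hi]
      · intro hj; exact absurd (mem_univ _) hj
    rw [e1]
    exact b.ne_zero j₀
  · apply sum_eq_zero
    intro i _
    have : ∏ l, el b (fun j => z l j) ^ 1 = 0 := by
      apply prod_eq_zero (mem_univ l₀)
      rw [pow_one]
      exact h0
    show _ * ∏ l, el b (fun j => z l j) ^ 1 = 0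
    rw [this, mul_zero]

/-- from the group to the semigroup -/
theorem mem_excK {k M H : ℕ} (hM : 1 ≤ M) (hH : 1 ≤ H) (hd : 0 < d) {h : ℝ}
    (hh : ∀ m : ℤ, |(m : ℝ)| ≤ h → |m| ≤ (H : ℤ)) {z : Fin k → Fin d → ℤ} (hz : z ∈ Bad b k M h) :
    (fun p : Fin k × Fin d => z p.1 p.2) ∈ ExcK b k M H := by
  classical
  by_cases hne : ∃ l, alg b (z l) = 0
  · obtain ⟨l, hl⟩ := hne
    exact zero_mem b hM hH hd hl
  push Not at hne
  rcases hz with ⟨l₀, hl₀⟩ | ⟨x, c, h1, h2, h3⟩
  · exact absurd hl₀ (hne l₀)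
  set s : ℕ := ∑ i, ∑ l, (x i l).natAbs with hs
  have hle : ∀ i l, (x i l).natAbs ≤ s := by
    intro i l
    calc (x i l).natAbs ≤ ∑ l, (x i l).natAbs :=
          single_le_sum (f := fun l => (x i l).natAbs) (fun _ _ => Nat.zero_le _) (mem_univ l)
      _ ≤ s := single_le_sum (f := fun i => ∑ l, (x i l).natAbs) (fun _ _ => Nat.zero_le _)
          (mem_univ i)
  refine ⟨fun i l => (x i l + s).toNat, fun i j => b.repr (c i) j, fun i j => hh _ (h1 i j), ?_, ?_⟩
  · simp only [el_repr]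
    exact h2
  · have hK : algebraMap (𝓞 K) K (∑ i, el b (fun j => b.repr (c i) j) *
        ∏ l, el b (fun j => z l j) ^ (x i l + s).toNat) = 0 := by
      rw [map_sum]
      have e1 : ∀ i, ∏ l, alg b (z l) ^ (x i l + s).toNat =
          (∏ l, alg b (z l) ^ x i l) * ∏ l, alg b (z l) ^ s := by
        intro i
        rw [← prod_mul_distrib]
        apply prod_congr rfl
        intro l _
        rw [← zpow_natCast (alg b (z l)) (x i l + s).toNat, ← zpow_natCast (alg b (z l)) s,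
          ← zpow_add₀ (hne l)]
        congr 1
        have := hle i l
        omega
      have e2 : ∀ i, algebraMap (𝓞 K) K (el b (fun j => b.repr (c i) j) *
          ∏ l, el b (fun j => z l j) ^ (x i l + s).toNat) =
          (algebraMap (𝓞 K) K (c i) * ∏ l, alg b (z l) ^ x i l) * ∏ l, alg b (z l) ^ s := by
        intro i
        rw [map_mul, map_prod, el_repr, mul_assoc, ← e1]
        congr 1
        apply prod_congr rfl
        intro l _
        rw [map_pow, alg_eq]
      rw [sum_congr rfl (fun i _ => e2 i), ← sum_mul, h3, zero_mul]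
    exact (FaithfulSMul.algebraMap_eq_zero_iff (𝓞 K) K).1 hK

/-- **Main theorem.** -/
theorem main : ∃ δ : ℝ, 0 < δ ∧
    ∀ (K : Type) [Field K] [NumberField K] (d : ℕ) (b : Module.Basis (Fin d) ℤ (𝓞 K))
      (k M : ℕ) (ε : ℝ), 1 ≤ M → 0 < ε → ∃ N₀ : ℕ, ∀ N : ℕ, N₀ ≤ N →
      ∀ (a : Fin k → Fin d → ℤ) (s : Fin k → Fin d → ℕ), (∀ l j, N ≤ s l j) →
      (({z : Fin k → Fin d → ℤ | (∀ l j, a l j < z l j ∧ z l j ≤ a l j + s l j) ∧
        z ∈ Bad b k M (Real.exp (Real.log N ^ (1 - ε)))}.ncard : ℕ) : ℝ) ≤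
        (N : ℝ) ^ (-(δ / d)) * ∏ l, ∏ j, (s l j : ℝ) := by
  classical
  obtain ⟨C, hC, hcube⟩ := one_cubeK
  have hC0 : 0 < C := lt_of_lt_of_le one_pos hC
  refine ⟨1 / (1024 * C), by positivity, ?_⟩
  intro K _ _ d b k M ε hM h0
  have hdK : Module.finrank ℚ K = d := by
    have e1 := Module.finrank_eq_card_basis b
    rw [Fintype.card_fin, RingOfIntegers.rank] at e1
    exact e1
  have hd : 0 < d := by
    rw [← hdK]
    exact Module.finrank_pos
  have hd1 : (1 : ℝ) ≤ d := by exact_mod_cast hd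
  set ε' := min ε 1 with hε'
  have hε'0 : 0 < ε' := lt_min h0 one_pos
  obtain ⟨N₁, hN₁⟩ := hcube K d b k M ε' hε'0 (min_le_right _ _)
  -- large N
  have hev : ∀ᶠ N : ℕ in atTop, (2 : ℝ) ^ (k * d) ≤ (N : ℝ) ^ (1 / (1024 * C * d) : ℝ) :=
    ((tendsto_rpow_atTop (y := 1 / (1024 * C * d)) (by positivity)).comp
      tendsto_natCast_atTop_atTop).eventually_ge_atTop _
  obtain ⟨N₂, hN₂⟩ := eventually_atTop.1 hev
  refine ⟨max (max N₁ N₂) 3, fun N hN a s hs => ?_⟩
  have hN3 : 3 ≤ N := (le_max_right _ _).trans hN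
  have hN1 : 1 ≤ N := by omega
  have hNN1 : N₁ ≤ N := ((le_max_left _ _).trans (le_max_left _ _)).trans hN
  have hNN2 : N₂ ≤ N := ((le_max_right _ _).trans (le_max_left _ _)).trans hN
  have hNR : (0 : ℝ) < N := by exact_mod_cast hN1
  have hNR1 : (1 : ℝ) ≤ N := by exact_mod_cast hN1
  have hL1 : 1 ≤ Real.log N := by
    rw [Real.le_log_iff_exp_le hNR]
    have := Real.exp_one_lt_d9
    have h3 : (3 : ℝ) ≤ N := by exact_mod_cast hN3
    linarith
  set h : ℝ := Real.exp (Real.log N ^ (1 - ε)) with hh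
  set H := HH N ε' with hH
  have hhH : h ≤ Real.exp (Real.log N ^ (1 - ε')) := by
    apply Real.exp_le_exp.2
    apply Real.rpow_le_rpow_of_exponent_le hL1
    have := min_le_left ε 1
    linarith
  have hH1 : 1 ≤ H := by
    rw [hH]
    unfold HH
    apply Nat.le_floor
    rw [Nat.cast_one]
    exact Real.one_le_exp (by positivity)
  have hhm : ∀ m : ℤ, |(m : ℝ)| ≤ h → |m| ≤ (H : ℤ) := by
    intro m hm
    have e1 : ((m.natAbs : ℕ) : ℝ) = |(m : ℝ)| := by
      rw [Nat.cast_natAbs, Int.cast_abs]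
    have e2 : m.natAbs ≤ H := by
      rw [hH]
      unfold HH
      apply Nat.le_floor
      rw [e1]
      exact hm.trans hhH
    rw [Int.abs_eq_natAbs]
    exact_mod_cast e2
  -- the finite set
  let u : (Fin k → Fin d → ℤ) → (Fin k × Fin d → ℤ) := fun z p => z p.1 p.2
  have huinj : Function.Injective u := by
    intro z z' h
    funext l j
    exact congrFun h (l, j)
  set X : Set (Fin k → Fin d → ℤ) := {z | (∀ l j, a l j < z l j ∧ z l j ≤ a l j + s l j) ∧
        z ∈ Bad b k M h} with hX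
  set Bx : Finset (Fin k → Fin d → ℤ) := Fintype.piFinset (fun l => Fintype.piFinset
    (fun j => Ioc (a l j) (a l j + s l j))) with hBx
  have hXB : X ⊆ (Bx : Set (Fin k → Fin d → ℤ)) := by
    intro z hz
    rw [mem_coe, hBx, Fintype.mem_piFinset]
    intro l
    rw [Fintype.mem_piFinset]
    intro j
    rw [mem_Ioc]
    exact hz.1 l j
  have hfin : X.Finite := Bx.finite_toSet.subset hXB
  set E : Finset (Fin k × Fin d → ℤ) := hfin.toFinset.image u with hE
  have hcardE : X.ncard = E.card := by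
    rw [Set.ncard_eq_toFinset_card X hfin, hE, card_image_of_injective _ huinj]
  have hEmem : ∀ z ∈ E, (∀ i : Fin k × Fin d, a i.1 i.2 < z i ∧ z i ≤ a i.1 i.2 + s i.1 i.2) ∧
      z ∈ ExcK b k M H := by
    intro z hz
    rw [hE, mem_image] at hz
    obtain ⟨z', hz', rfl⟩ := hz
    rw [Set.Finite.mem_toFinset] at hz'
    exact ⟨fun i => hz'.1 i.1 i.2, mem_excK b hM hH1 hd hhm hz'.2⟩
  set β : ℝ := (N : ℝ) ^ ((k * d : ℝ) - 1 / (512 * C * d)) with hβ
  have hbox := box_countI (ι := Fin k × Fin d) hN1 (a := fun i => a i.1 i.2)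
    (b := fun i => s i.1 i.2) (fun i => hs i.1 i.2) (E := E) (fun z hz => (hEmem z hz).1)
    (β := β) (by positivity)
    (by
      intro a' E' hE' hc
      apply hN₁ N hNN1 a' E'
      intro z hz
      exact ⟨hc z hz, (hEmem z (hE' hz)).2⟩)
  rw [hcardE]
  have hcard : Fintype.card (Fin k × Fin d) = k * d := by
    rw [Fintype.card_prod, Fintype.card_fin, Fintype.card_fin]
  rw [hcard] at hbox
  have hprod : ∏ i : Fin k × Fin d, ((s i.1 i.2 : ℕ) : ℝ) = ∏ l, ∏ j, (s l j : ℝ) := by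
    rw [Fintype.prod_prod_type]
  rw [hprod] at hbox
  have hP0 : (0 : ℝ) ≤ ∏ l, ∏ j, (s l j : ℝ) :=
    prod_nonneg (fun l _ => prod_nonneg (fun j _ => Nat.cast_nonneg _))
  calc (E.card : ℝ) ≤ β * (2 ^ (k * d) * (∏ l, ∏ j, (s l j : ℝ)) / (N : ℝ) ^ (k * d)) := hbox
    _ ≤ β * ((N : ℝ) ^ (1 / (1024 * C * d) : ℝ) * (∏ l, ∏ j, (s l j : ℝ)) / (N : ℝ) ^ (k * d)) := by
        have := hN₂ N hNN2
        gcongr
    _ = ((N : ℝ) ^ (1 / (1024 * C * d) : ℝ) * (β * (N : ℝ) ^ (-((k * d : ℕ) : ℝ)))) *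
          ∏ l, ∏ j, (s l j : ℝ) := by
        rw [Real.rpow_neg hNR.le, Real.rpow_natCast]
        ring
    _ = (N : ℝ) ^ (-(1 / (1024 * C * d)) : ℝ) * ∏ l, ∏ j, (s l j : ℝ) := by
        congr 1
        rw [hβ, ← Real.rpow_add hNR, ← Real.rpow_add hNR]
        congr 1
        push_cast
        field_simp
        ring
    _ = _ := by
        congr 2
        field_simp

end Pool.Agent.TH194.NF
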